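import Mathlib

/-!
# Cardinal functions as superpositions of exponentials

`σ(z) = ∑ b_k e^{iθ_k z}` with `∑ b_k = 0`, `∑ b_k θ_k = 0`:
`σ(z)/z² = ∫_{-L}^{L} κ(θ) e^{iθz} dθ` with the piecewise linear kernel
`κ(θ) = -∑ b_k (θ-θ_k)_+ = -½ ∑ b_k |θ-θ_k|`.
-/

namespace Pool.Agent.Helper95.CE

open Complex MeasureTheory Set intervalIntegral

noncomputable section

variable {ι : Type*}

/-- the piecewise linear kernel -/
def kap (t : Finset ι) (b : ι → ℂ) (th : ι → ℝ) (θ : ℝ) : ℂ :=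
  -∑ k ∈ t, b k * ((max (θ - th k) 0 : ℝ) : ℂ)

theorem kap_cont (t : Finset ι) (b : ι → ℂ) (th : ι → ℝ) : Continuous (kap t b th) := by
  unfold kap
  refine Continuous.neg (continuous_finsetSum _ fun k _ => Continuous.mul continuous_const ?_)
  exact continuous_ofReal.comp ((continuous_id.sub continuous_const).max continuous_const)

/-- second form of the kernel -/
theorem kap_eq (t : Finset ι) (b : ι → ℂ) (th : ι → ℝ) (h0 : ∑ k ∈ t, b k = 0)
    (h1 : ∑ k ∈ t, b k * (th k : ℂ) = 0) (θ : ℝ) :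
    kap t b th θ = -(1 / 2) * ∑ k ∈ t, b k * ((|θ - th k| : ℝ) : ℂ) := by
  have e : ∀ k, ((max (θ - th k) 0 : ℝ) : ℂ)
      = (1 / 2) * ((θ : ℂ) - (th k : ℂ)) + (1 / 2) * ((|θ - th k| : ℝ) : ℂ) := by
    intro k
    have : (max (θ - th k) 0 : ℝ) = (1 / 2) * (θ - th k) + (1 / 2) * |θ - th k| := by
      rcases le_total 0 (θ - th k) with h | h
      · rw [max_eq_left h, abs_of_nonneg h]; ring
      · rw [max_eq_right h, abs_of_nonpos h]; ring
    rw [this]; push_cast; ring
  unfold kap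
  have e2 : ∑ k ∈ t, b k * ((max (θ - th k) 0 : ℝ) : ℂ)
      = (1 / 2) * ((θ : ℂ) * ∑ k ∈ t, b k - ∑ k ∈ t, b k * (th k : ℂ))
        + (1 / 2) * ∑ k ∈ t, b k * ((|θ - th k| : ℝ) : ℂ) := by
    rw [Finset.mul_sum, ← Finset.sum_sub_distrib, Finset.mul_sum, Finset.mul_sum,
      ← Finset.sum_add_distrib]
    exact Finset.sum_congr rfl fun k _ => by rw [e k]; ring
  rw [e2, h0, h1]; ring

/-- the kernel vanishes outside `[-L, L]` -/
theorem kap_out (t : Finset ι) (b : ι → ℂ) (th : ι → ℝ) (L : ℝ) (hL : ∀ k ∈ t, |th k| ≤ L)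
    (h0 : ∑ k ∈ t, b k = 0) (h1 : ∑ k ∈ t, b k * (th k : ℂ) = 0) (θ : ℝ) (hθ : L ≤ |θ|) :
    kap t b th θ = 0 := by
  unfold kap
  rcases le_total 0 θ with h | h
  · have : ∑ k ∈ t, b k * ((max (θ - th k) 0 : ℝ) : ℂ)
        = (θ : ℂ) * ∑ k ∈ t, b k - ∑ k ∈ t, b k * (th k : ℂ) := by
      rw [Finset.mul_sum, ← Finset.sum_sub_distrib]
      refine Finset.sum_congr rfl fun k hk => ?_
      have h2 := abs_le.1 (hL k hk)
      rw [abs_of_nonneg h] at hθ
      rw [max_eq_left (by linarith)]; push_cast; ring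
    rw [this, h0, h1]; simp
  · have : ∑ k ∈ t, b k * ((max (θ - th k) 0 : ℝ) : ℂ) = 0 := by
      refine Finset.sum_eq_zero fun k hk => ?_
      have h2 := abs_le.1 (hL k hk)
      rw [abs_of_nonpos h] at hθ
      rw [max_eq_right (by linarith)]; simp
    rw [this]; simp

/-- crude bound of the kernel -/
theorem kap_norm (t : Finset ι) (b : ι → ℂ) (th : ι → ℝ) (h0 : ∑ k ∈ t, b k = 0)
    (h1 : ∑ k ∈ t, b k * (th k : ℂ) = 0) (θ : ℝ) :
    ‖kap t b th θ‖ ≤ (1 / 2) * ∑ k ∈ t, ‖b k‖ * |θ - th k| := by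
  rw [kap_eq t b th h0 h1, norm_mul]
  have : ‖(-(1 / 2) : ℂ)‖ = 1 / 2 := by norm_num
  rw [this]
  refine mul_le_mul_of_nonneg_left ((norm_sum_le _ _).trans (Finset.sum_le_sum fun k _ => ?_))
    (by norm_num)
  rw [norm_mul, Complex.norm_real, Real.norm_eq_abs, abs_abs]

theorem one_piece (a L : ℝ) (haL : -L ≤ a) (haL' : a ≤ L) (z : ℂ) (hz : z ≠ 0) :
    ∫ θ in (-L)..L, ((max (θ - a) 0 : ℝ) : ℂ) * exp (I * θ * z)
      = ((L : ℂ) - a) * exp (I * L * z) / (I * z) + exp (I * L * z) / z ^ 2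
        - exp (I * a * z) / z ^ 2 := by
  have c1 : Continuous fun θ : ℝ => ((max (θ - a) 0 : ℝ) : ℂ) * exp (I * θ * z) := by
    refine Continuous.mul ?_ (by fun_prop)
    exact continuous_ofReal.comp ((continuous_id.sub continuous_const).max continuous_const)
  rw [← integral_add_adjacent_intervals (c1.intervalIntegrable (-L) a) (c1.intervalIntegrable a L)]
  have z1 : ∫ θ in (-L)..a, ((max (θ - a) 0 : ℝ) : ℂ) * exp (I * θ * z) = 0 := by
    refine (integral_congr fun θ hθ => ?_).trans (integral_zero)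
    rw [uIcc_of_le haL] at hθ
    rw [max_eq_right (by linarith [hθ.2])]; simp
  have z2 : ∫ θ in a..L, ((max (θ - a) 0 : ℝ) : ℂ) * exp (I * θ * z)
      = ∫ θ in a..L, ((θ : ℂ) - a) * exp (I * θ * z) := by
    refine integral_congr fun θ hθ => ?_
    rw [uIcc_of_le haL'] at hθ
    rw [max_eq_left (by linarith [hθ.1])]; push_cast; ring
  have hd : ∀ θ : ℝ, HasDerivAt (fun θ : ℝ => ((θ : ℂ) - a) * exp (I * θ * z) / (I * z)
      + exp (I * θ * z) / z ^ 2) (((θ : ℂ) - a) * exp (I * θ * z)) θ := by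
    intro θ
    have e1 : HasDerivAt (fun θ : ℝ => (θ : ℂ)) 1 θ := Complex.ofRealCLM.hasDerivAt
    have e2 : HasDerivAt (fun θ : ℝ => exp (I * θ * z)) (exp (I * θ * z) * (I * 1 * z)) θ :=
      ((e1.const_mul I).mul_const z).cexp
    have e3 := (((e1.sub_const (a : ℂ)).mul e2).div_const (I * z)).add (e2.div_const (z ^ 2))
    refine e3.congr_deriv ?_
    have hI : I * I = -1 := I_mul_I
    have hI0 : I ≠ 0 := I_ne_zero
    generalize exp (I * θ * z) = E
    have hz2 : (1 : ℂ) / (I * z) = -I / z := by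
      rw [div_eq_div_iff (mul_ne_zero hI0 hz) hz]; linear_combination (z : ℂ) * hI
    have : (1 * E + ((θ : ℂ) - a) * (E * (I * 1 * z))) / (I * z) + E * (I * 1 * z) / z ^ 2
        = E * (1 / (I * z)) + ((θ : ℂ) - a) * E * ((I * z) / (I * z)) + E * I * (z / z ^ 2) := by
      ring
    rw [this, hz2, div_self (mul_ne_zero hI0 hz)]
    have h3 : z / z ^ 2 = 1 / z := by rw [pow_two, div_mul_cancel_left₀ hz]; rw [one_div]
    rw [h3]; ring
  rw [z1, z2, integral_eq_sub_of_hasDerivAt (fun θ _ => hd θ)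
    (Continuous.intervalIntegrable (by fun_prop) _ _)]
  simp only [sub_self, zero_mul, zero_div]
  ring

/-- **The cardinal function is a superposition of exponentials.** -/
theorem kap_int (t : Finset ι) (b : ι → ℂ) (th : ι → ℝ) (L : ℝ) (hL : ∀ k ∈ t, |th k| ≤ L)
    (h0 : ∑ k ∈ t, b k = 0) (h1 : ∑ k ∈ t, b k * (th k : ℂ) = 0) (z : ℂ) (hz : z ≠ 0) :
    ∫ θ in (-L)..L, kap t b th θ * exp (I * θ * z)
      = (∑ k ∈ t, b k * exp (I * th k * z)) / z ^ 2 := by
  have e : ∀ θ : ℝ, kap t b th θ * exp (I * θ * z)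
      = ∑ k ∈ t, (-b k) * (((max (θ - th k) 0 : ℝ) : ℂ) * exp (I * θ * z)) := by
    intro θ
    unfold kap
    rw [neg_mul, Finset.sum_mul, ← Finset.sum_neg_distrib]
    exact Finset.sum_congr rfl fun k _ => by ring
  simp_rw [e]
  rw [intervalIntegral.integral_finsetSum]
  · have e1 : ∀ k ∈ t, ∫ θ in (-L)..L, (-b k) * (((max (θ - th k) 0 : ℝ) : ℂ) * exp (I * θ * z))
        = -(b k * (L : ℂ) - b k * (th k : ℂ)) * (exp (I * L * z) / (I * z))
          - b k * (exp (I * L * z) / z ^ 2) + b k * exp (I * th k * z) / z ^ 2 := by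
      intro k hk
      have h2 := abs_le.1 (hL k hk)
      rw [intervalIntegral.integral_const_mul, one_piece (th k) L h2.1 h2.2 z hz]
      ring
    rw [Finset.sum_congr rfl e1, Finset.sum_add_distrib, Finset.sum_sub_distrib, ← Finset.sum_mul,
      ← Finset.sum_mul, Finset.sum_neg_distrib, Finset.sum_sub_distrib, ← Finset.sum_mul, h0, h1,
      Finset.sum_div]
    ring
  · intro k _
    refine Continuous.intervalIntegrable ?_ _ _
    refine continuous_const.mul (Continuous.mul ?_ (by fun_prop))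
    exact continuous_ofReal.comp ((continuous_id.sub continuous_const).max continuous_const)

/-- the piecewise constant kernel of `σ(z)/z` -/
def rho (t : Finset ι) (b : ι → ℂ) (th : ι → ℝ) (θ : ℝ) : ℂ :=
  -I * ∑ k ∈ t, b k * (if th k < θ then 1 else 0)

theorem rho_meas (t : Finset ι) (b : ι → ℂ) (th : ι → ℝ) : Measurable (rho t b th) := by
  unfold rho
  refine Measurable.const_mul (Finset.measurable_sum _ fun k _ => ?_) _
  exact (Measurable.ite measurableSet_Ioi measurable_const measurable_const).const_mul _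

/-- the kernel vanishes outside `[-L, L]` -/
theorem rho_out (t : Finset ι) (b : ι → ℂ) (th : ι → ℝ) (L : ℝ) (hL : ∀ k ∈ t, |th k| ≤ L)
    (h0 : ∑ k ∈ t, b k = 0) (θ : ℝ) (hθ : L < |θ|) :
    rho t b th θ = 0 := by
  unfold rho
  rcases le_total 0 θ with h | h
  · have : ∑ k ∈ t, b k * (if th k < θ then (1 : ℂ) else 0) = ∑ k ∈ t, b k := by
      refine Finset.sum_congr rfl fun k hk => ?_
      have h2 := abs_le.1 (hL k hk)
      rw [abs_of_nonneg h] at hθ
      rw [if_pos (by linarith), mul_one]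
    rw [this, h0]; simp
  · have : ∑ k ∈ t, b k * (if th k < θ then (1 : ℂ) else 0) = 0 := by
      refine Finset.sum_eq_zero fun k hk => ?_
      have h2 := abs_le.1 (hL k hk)
      rw [abs_of_nonpos h] at hθ
      rw [if_neg (by linarith), mul_zero]
    rw [this]; simp

theorem rho_norm (t : Finset ι) (b : ι → ℂ) (th : ι → ℝ) (θ : ℝ) :
    ‖rho t b th θ‖ ≤ ∑ k ∈ t, ‖b k‖ := by
  unfold rho
  rw [norm_mul, norm_neg, norm_I, one_mul]
  refine (norm_sum_le _ _).trans (Finset.sum_le_sum fun k _ => ?_)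
  rw [norm_mul]
  refine (mul_le_mul_of_nonneg_left (?_ : _ ≤ (1 : ℝ)) (norm_nonneg _)).trans (by rw [mul_one])
  split_ifs <;> simp

theorem one_step (a L : ℝ) (haL : -L ≤ a) (haL' : a ≤ L) (z : ℂ) (hz : z ≠ 0) :
    IntervalIntegrable (fun θ : ℝ => (if a < θ then (1 : ℂ) else 0) * exp (I * θ * z)) volume (-L) L ∧
    ∫ θ in (-L)..L, (if a < θ then (1 : ℂ) else 0) * exp (I * θ * z)
      = (exp (I * L * z) - exp (I * a * z)) / (I * z) := by
  have c0 : Continuous fun θ : ℝ => exp (I * θ * z) := by fun_prop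
  have i1 : IntervalIntegrable (fun θ : ℝ => (if a < θ then (1 : ℂ) else 0) * exp (I * θ * z))
      volume (-L) a := by
    refine (IntervalIntegrable.congr_ae (f := fun _ => (0 : ℂ)) (by simp) ?_)
    refine (ae_restrict_iff' measurableSet_uIoc).2 (Filter.Eventually.of_forall fun θ hθ => ?_)
    rw [uIoc_of_le haL] at hθ
    simp [not_lt.2 hθ.2]
  have i2 : IntervalIntegrable (fun θ : ℝ => (if a < θ then (1 : ℂ) else 0) * exp (I * θ * z))
      volume a L := by
    refine (IntervalIntegrable.congr_ae (f := fun θ : ℝ => exp (I * θ * z))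
      (c0.intervalIntegrable _ _) ?_)
    refine (ae_restrict_iff' measurableSet_uIoc).2 (Filter.Eventually.of_forall fun θ hθ => ?_)
    rw [uIoc_of_le haL'] at hθ
    simp [hθ.1]
  refine ⟨i1.trans i2, ?_⟩
  rw [← integral_add_adjacent_intervals i1 i2]
  have z1 : ∫ θ in (-L)..a, (if a < θ then (1 : ℂ) else 0) * exp (I * θ * z) = 0 := by
    rw [intervalIntegral.integral_of_le haL]
    refine (setIntegral_congr_fun measurableSet_Ioc fun θ hθ => ?_).trans
      (by simp : ∫ θ in Ioc (-L) a, (0 : ℂ) = 0)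
    simp [not_lt.2 hθ.2]
  have z2 : ∫ θ in a..L, (if a < θ then (1 : ℂ) else 0) * exp (I * θ * z)
      = ∫ θ in a..L, exp (I * θ * z) := by
    rw [intervalIntegral.integral_of_le haL', intervalIntegral.integral_of_le haL']
    refine setIntegral_congr_fun measurableSet_Ioc fun θ hθ => ?_
    simp [hθ.1]
  have hIz : I * z ≠ 0 := mul_ne_zero I_ne_zero hz
  have hd : ∀ θ : ℝ, HasDerivAt (fun θ : ℝ => exp (I * θ * z) / (I * z)) (exp (I * θ * z)) θ := by
    intro θ
    have e1 : HasDerivAt (fun θ : ℝ => (θ : ℂ)) 1 θ := Complex.ofRealCLM.hasDerivAt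
    have e2 : HasDerivAt (fun θ : ℝ => exp (I * θ * z)) (exp (I * θ * z) * (I * 1 * z)) θ :=
      ((e1.const_mul I).mul_const z).cexp
    refine (e2.div_const (I * z)).congr_deriv ?_
    rw [mul_one, mul_div_assoc, div_self hIz, mul_one]
  rw [z1, z2, integral_eq_sub_of_hasDerivAt (fun θ _ => hd θ)
    (Continuous.intervalIntegrable (by fun_prop) _ _)]
  ring

theorem rho_intble (t : Finset ι) (b : ι → ℂ) (th : ι → ℝ) (L : ℝ) (hL : ∀ k ∈ t, |th k| ≤ L)
    (z : ℂ) (hz : z ≠ 0) :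
    IntervalIntegrable (fun θ : ℝ => rho t b th θ * exp (I * θ * z)) volume (-L) L := by
  have e : (fun θ : ℝ => rho t b th θ * exp (I * θ * z))
      = fun θ : ℝ => ∑ k ∈ t, (-I * b k) * ((if th k < θ then (1 : ℂ) else 0) * exp (I * θ * z)) := by
    funext θ
    unfold rho
    rw [mul_assoc, Finset.sum_mul, Finset.mul_sum]
    exact Finset.sum_congr rfl fun k _ => by ring
  rw [e]
  have := IntervalIntegrable.sum (μ := volume) (a := -L) (b := L) (f := fun k θ => (-I * b k) *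
    ((if th k < θ then (1 : ℂ) else 0) * exp (I * θ * z))) t fun k hk => by
      have h2 := abs_le.1 (hL k hk)
      exact ((one_step (th k) L h2.1 h2.2 z hz).1).const_mul _
  have e3 : (∑ k ∈ t, fun θ : ℝ => (-I * b k) * ((if th k < θ then (1 : ℂ) else 0) * exp (I * θ * z)))
      = fun θ : ℝ => ∑ k ∈ t, (-I * b k) * ((if th k < θ then (1 : ℂ) else 0) * exp (I * θ * z)) := by
    funext θ
    rw [Finset.sum_apply]
  rw [e3] at this
  exact this

/-- **`σ(z)/z` as a superposition of exponentials.** -/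
theorem rho_int (t : Finset ι) (b : ι → ℂ) (th : ι → ℝ) (L : ℝ) (hL : ∀ k ∈ t, |th k| ≤ L)
    (h0 : ∑ k ∈ t, b k = 0) (z : ℂ) (hz : z ≠ 0) :
    ∫ θ in (-L)..L, rho t b th θ * exp (I * θ * z)
      = (∑ k ∈ t, b k * exp (I * th k * z)) / z := by
  have e : ∀ θ : ℝ, rho t b th θ * exp (I * θ * z)
      = ∑ k ∈ t, (-I * b k) * ((if th k < θ then (1 : ℂ) else 0) * exp (I * θ * z)) := by
    intro θ
    unfold rho
    rw [mul_assoc, Finset.sum_mul, Finset.mul_sum]
    exact Finset.sum_congr rfl fun k _ => by ring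
  simp_rw [e]
  rw [intervalIntegral.integral_finsetSum]
  · have hI : I ≠ 0 := I_ne_zero
    have e1 : ∀ k ∈ t, ∫ θ in (-L)..L, (-I * b k) *
        ((if th k < θ then (1 : ℂ) else 0) * exp (I * θ * z))
        = -b k * (exp (I * L * z) / z) + b k * exp (I * th k * z) / z := by
      intro k hk
      have h2 := abs_le.1 (hL k hk)
      rw [intervalIntegral.integral_const_mul, (one_step (th k) L h2.1 h2.2 z hz).2]
      field_simp
      ring
    rw [Finset.sum_congr rfl e1, Finset.sum_add_distrib, ← Finset.sum_mul,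
      Finset.sum_neg_distrib, h0, Finset.sum_div]
    ring
  · intro k hk
    have h2 := abs_le.1 (hL k hk)
    exact ((one_step (th k) L h2.1 h2.2 z hz).1).const_mul _

end

end Pool.Agent.Helper95.CE
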