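import Mathlib

/-!
# The 36-periodic function with double zeros at the 15 classes of Loeschian numbers

`sig x = 8 g(π(x-4)/6) · 8 g(π(x-12)/18) · 8 g(πx/18)`, `g φ = (1 - cos φ) cos² φ`,
is `∑_{k=-15}^{15} a_k e^{iπkx/18}` with explicit `a_k = (u_k + i√3 v_k)/2`.
-/

namespace Pool.Agent.Helper95.CE

open Complex Finset

noncomputable section

def g3 (φ : ℝ) : ℝ := (1 - Real.cos φ) * Real.cos φ ^ 2

def sig (x : ℝ) : ℝ :=
  8 * g3 (Real.pi * (x - 4) / 6) * (8 * g3 (Real.pi * (x - 12) / 18)) * (8 * g3 (Real.pi * x / 18))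

def uL : List ℤ := [-2, 2, 1, 2, 6, 0, -3, 0, -12, -4, -5, -10, 4, 6, 3, 24, 3, 6, 4, -10, -5, -4,
  -12, 0, -3, 0, 6, 2, 1, 2, -2]
def vL : List ℤ := [0, -2, 1, -2, 2, 4, 1, 4, 2, -4, 1, -6, -8, -2, -7, 0, 7, 2, 8, 6, -1, 4, -2, -4,
  -1, -4, -2, 2, -1, 2, 0]

/-- primitive third root of unity `e^{2πi/3}` -/
def om : ℂ := -(1 / 2) + (Real.sqrt 3 / 2 : ℝ) * I

theorem om_rel : om ^ 2 + om + 1 = 0 := by
  have h : (Real.sqrt 3 : ℂ) ^ 2 = 3 := by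
    rw [← ofReal_pow, Real.sq_sqrt (by norm_num)]; norm_num
  have hI : I ^ 2 = -1 := I_sq
  unfold om; push_cast
  linear_combination (1 / 4 * I ^ 2) * h + 3 / 4 * hI

/-- coefficient number `k` (frequency `π(k-15)/18`) -/
def aN (k : ℕ) : ℂ := ((uL.getD k 0 : ℤ) + (vL.getD k 0 : ℤ) * (2 * om + 1)) / 2

def th36 (k : ℕ) : ℝ := Real.pi * (k - 15) / 18

/-- the entire extension -/
def sigC (z : ℂ) : ℂ := ∑ k ∈ range 31, aN k * exp (I * th36 k * z)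

theorem poly_id (T w : ℂ) (hw : w ^ 2 + w + 1 = 0) :
    -((T ^ 9 - w * T ^ 6 + w ^ 2 * T ^ 3 - 1) * (T ^ 3 - w * T ^ 2 + w ^ 2 * T - 1)
      * (T ^ 3 - T ^ 2 + T - 1)) ^ 2
    = ∑ k ∈ range 31, (((uL.getD k 0 : ℤ) + (vL.getD k 0 : ℤ) * (2 * w + 1)) / 2 : ℂ) * T ^ k := by
  simp only [Finset.sum_range_succ, Finset.sum_range_zero, uL, vL, List.getD_cons_zero,
    List.getD_cons_succ]
  push_cast
  linear_combination ((2)*T^1*w^0 + (-4)*T^2*w^0 + (1)*T^2*w^1 + (-1)*T^2*w^2 + (6)*T^3*w^0 + (2)*T^3*w^2 + (-11)*T^4*w^0 + (3)*T^4*w^1 + (-7)*T^4*w^2 + (6)*T^5*w^0 + (12)*T^5*w^2 + (-2)*T^5*w^3 + (2)*T^5*w^4 + (-9)*T^6*w^0 + (-4)*T^6*w^1 + (-12)*T^6*w^2 + (-4)*T^6*w^4 + (6)*T^7*w^0 + (4)*T^7*w^1 + (18)*T^7*w^2 + (8)*T^7*w^4 + (-2)*T^8*w^0 + (-16)*T^8*w^1 + (-11)*T^8*w^2 + (-5)*T^8*w^3 + (-12)*T^8*w^4 + (1)*T^8*w^5 + (-1)*T^8*w^6 + (12)*T^9*w^0 + (10)*T^9*w^1 + (12)*T^9*w^2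 + (14)*T^9*w^3 + (10)*T^9*w^4 + (2)*T^9*w^6 + (-5)*T^10*w^0 + (-14)*T^10*w^1 + (-16)*T^10*w^2 + (-16)*T^10*w^3 + (-11)*T^10*w^4 + (-1)*T^10*w^5 + (-3)*T^10*w^6 + (16)*T^11*w^0 + (12)*T^11*w^1 + (14)*T^11*w^2 + (24)*T^11*w^3 + (6)*T^11*w^4 + (4)*T^11*w^5 + (4)*T^11*w^6 + (-11)*T^12*w^0 + (-9)*T^12*w^1 + (-27)*T^12*w^2 + (-18)*T^12*w^3 + (-5)*T^12*w^4 + (-9)*T^12*w^5 + (-3)*T^12*w^6 + (12)*T^13*w^0 + (18)*T^13*w^1 + (24)*T^13*w^2 + (16)*T^13*w^3 + (10)*T^13*w^4 + (10)*T^13*w^5 + (2)*T^13*w^6 + (-14)*T^14*w^0 + (-13)*T^14*w^1 + (-30)*T^14*w^2 + (-13)*T^14*w^3 + (-12)*T^14*w^4 + (-11)*T^14*w^5 + (-1)*T^14*w^6 + (8)*T^15*w^0 + (26)*T^15*w^1 + (24)*T^15*w^2 + (10)*T^15*w^3 + (20)*T^15*w^4 + (8)*T^15*w^5 + (-21)*T^16*w^0 + (-16)*T^16*w^1 + (-20)*T^16*w^2 + (-20)*T^16*w^3 + (-20)*T^16*w^4 + (-4)*T^16*w^5 + (10)*T^17*w^0 + (18)*T^17*w^1 + (22)*T^17*w^2 + (20)*T^17*w^3 + (18)*T^17*w^4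 + (2)*T^17*w^5 + (-19)*T^18*w^0 + (-15)*T^18*w^1 + (-16)*T^18*w^2 + (-27)*T^18*w^3 + (-13)*T^18*w^4 + (10)*T^19*w^0 + (6)*T^19*w^1 + (28)*T^19*w^2 + (24)*T^19*w^3 + (6)*T^19*w^4 + (-4)*T^20*w^0 + (-17)*T^20*w^1 + (-24)*T^20*w^2 + (-17)*T^20*w^3 + (-3)*T^20*w^4 + (8)*T^21*w^0 + (12)*T^21*w^1 + (24)*T^21*w^2 + (12)*T^21*w^3 + (-20)*T^22*w^1 + (-20)*T^22*w^2 + (-4)*T^22*w^3 + (10)*T^23*w^0 + (18)*T^23*w^1 + (10)*T^23*w^2 + (2)*T^23*w^3 + (-8)*T^24*w^0 + (-13)*T^24*w^1 + (-7)*T^24*w^2 + (10)*T^25*w^0 + (10)*T^25*w^1 + (2)*T^25*w^2 + (-9)*T^26*w^0 + (-3)*T^26*w^1 + (-1)*T^26*w^2 + (4)*T^27*w^0 + (2)*T^27*w^1 + (-3)*T^28*w^0) * hw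

theorem exp_th (k : ℕ) (z : ℂ) :
    exp (I * th36 k * z) = exp (I * Real.pi / 18 * z) ^ k * exp (-(I * Real.pi / 18 * z)) ^ 15 := by
  rw [← exp_nat_mul, ← exp_nat_mul, ← exp_add]
  congr 1
  unfold th36; push_cast; ring

theorem sigC_prod (z : ℂ) :
    sigC z = -(exp (-(I * Real.pi / 18 * z))) ^ 15 *
      ((exp (I * Real.pi / 18 * z) ^ 9 - om * exp (I * Real.pi / 18 * z) ^ 6
        + om ^ 2 * exp (I * Real.pi / 18 * z) ^ 3 - 1)
      * (exp (I * Real.pi / 18 * z) ^ 3 - om * exp (I * Real.pi / 18 * z) ^ 2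
        + om ^ 2 * exp (I * Real.pi / 18 * z) - 1)
      * (exp (I * Real.pi / 18 * z) ^ 3 - exp (I * Real.pi / 18 * z) ^ 2
        + exp (I * Real.pi / 18 * z) - 1)) ^ 2 := by
  have h := poly_id (exp (I * Real.pi / 18 * z)) om om_rel
  have e : sigC z = (∑ k ∈ range 31, (((uL.getD k 0 : ℤ) + (vL.getD k 0 : ℤ) * (2 * om + 1)) / 2 : ℂ)
      * exp (I * Real.pi / 18 * z) ^ k) * exp (-(I * Real.pi / 18 * z)) ^ 15 := by
    unfold sigC aN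
    rw [Finset.sum_mul]
    exact Finset.sum_congr rfl fun k _ => by rw [exp_th]; ring
  rw [e, ← h]; ring

/-- `8 g φ` in terms of `E = e^{iφ}`, `F = e^{-iφ}`. -/
theorem g3_exp (φ : ℝ) (E F : ℂ) (hE : E = exp (I * φ)) (hF : F = exp (-(I * φ))) :
    ((8 * g3 φ : ℝ) : ℂ) = -F ^ 3 * (E ^ 3 - E ^ 2 + E - 1) ^ 2 := by
  have hEF : E * F = 1 := by rw [hE, hF, ← exp_add, add_neg_cancel, exp_zero]
  have hc : (Real.cos φ : ℂ) = (E + F) / 2 := by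
    rw [ofReal_cos, Complex.cos, hE, hF]; congr 2 <;> · congr 1; ring
  unfold g3
  push_cast
  rw [← ofReal_cos, hc]
  have h2 : F ^ 3 * (E ^ 3 - E ^ 2 + E - 1) ^ 2 = (F * (E - 1) ^ 2) * (F * (E ^ 2 + 1)) ^ 2 := by
    ring
  have h3 : F * (E - 1) ^ 2 = E - 2 + F := by linear_combination (E - 2) * hEF
  have h4 : F * (E ^ 2 + 1) = E + F := by linear_combination E * hEF
  rw [neg_mul, h2, h3, h4]; ring

theorem exp_mtt : exp (-(I * (2 * Real.pi / 3))) = om ^ 2 := by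
  have h1 : exp (-(I * (2 * Real.pi / 3))) = (Real.cos (2 * Real.pi / 3) : ℂ)
      - (Real.sin (2 * Real.pi / 3) : ℂ) * I := by
    have : -(I * (2 * Real.pi / 3)) = ((-(2 * Real.pi / 3) : ℝ) : ℂ) * I := by push_cast; ring
    rw [this, exp_mul_I, ← ofReal_cos, ← ofReal_sin, Real.cos_neg, Real.sin_neg]; push_cast; ring
  have h2 : Real.cos (2 * Real.pi / 3) = -(1 / 2) := by
    have : 2 * Real.pi / 3 = Real.pi - Real.pi / 3 := by ring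
    rw [this, Real.cos_pi_sub, Real.cos_pi_div_three]
  have h3 : Real.sin (2 * Real.pi / 3) = Real.sqrt 3 / 2 := by
    have : 2 * Real.pi / 3 = Real.pi - Real.pi / 3 := by ring
    rw [this, Real.sin_pi_sub, Real.sin_pi_div_three]
  rw [h1, h2, h3]
  have hr := om_rel
  have : om ^ 2 = -1 - om := by linear_combination hr
  rw [this]; unfold om; push_cast; ring

theorem exp_tt : exp (I * (2 * Real.pi / 3)) = om := by
  have h1 : exp (I * (2 * Real.pi / 3)) * exp (-(I * (2 * Real.pi / 3))) = 1 := by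
    rw [← exp_add, add_neg_cancel, exp_zero]
  rw [exp_mtt] at h1
  have h3 : om ^ 3 = 1 := by linear_combination (om - 1) * om_rel
  calc exp (I * (2 * Real.pi / 3)) = exp (I * (2 * Real.pi / 3)) * om ^ 3 := by rw [h3, mul_one]
    _ = (exp (I * (2 * Real.pi / 3)) * om ^ 2) * om := by ring
    _ = om := by rw [h1, one_mul]

/-- **product = sum** -/
theorem sig_eq (x : ℝ) : ((sig x : ℝ) : ℂ) = sigC x := by
  have hp := sigC_prod x
  have h3 : om ^ 3 = 1 := by linear_combination (om - 1) * om_rel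
  set T := exp (I * Real.pi / 18 * x) with hT
  set F := exp (-(I * Real.pi / 18 * x)) with hF
  have e1 : exp (I * ((Real.pi * (x - 4) / 6 : ℝ) : ℂ)) = T ^ 3 * om ^ 2 := by
    rw [hT, ← exp_mtt, ← exp_nat_mul, ← exp_add]; congr 1; push_cast; ring
  have f1 : exp (-(I * ((Real.pi * (x - 4) / 6 : ℝ) : ℂ))) = F ^ 3 * om := by
    rw [hF, ← exp_tt, ← exp_nat_mul, ← exp_add]; congr 1; push_cast; ring
  have e2 : exp (I * ((Real.pi * (x - 12) / 18 : ℝ) : ℂ)) = T * om ^ 2 := by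
    rw [hT, ← exp_mtt, ← exp_add]; congr 1; push_cast; ring
  have f2 : exp (-(I * ((Real.pi * (x - 12) / 18 : ℝ) : ℂ))) = F * om := by
    rw [hF, ← exp_tt, ← exp_add]; congr 1; push_cast; ring
  have e3 : exp (I * ((Real.pi * x / 18 : ℝ) : ℂ)) = T := by
    rw [hT]; congr 1; push_cast; ring
  have f3 : exp (-(I * ((Real.pi * x / 18 : ℝ) : ℂ))) = F := by
    rw [hF]; congr 1; push_cast; ring
  have g1 := g3_exp _ _ _ e1.symm f1.symm
  have g2 := g3_exp _ _ _ e2.symm f2.symm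
  have g4 := g3_exp _ _ _ e3.symm f3.symm
  have : ((sig x : ℝ) : ℂ) = ((8 * g3 (Real.pi * (x - 4) / 6) : ℝ) : ℂ)
      * ((8 * g3 (Real.pi * (x - 12) / 18) : ℝ) : ℂ) * ((8 * g3 (Real.pi * x / 18) : ℝ) : ℂ) := by
    unfold sig; push_cast; ring
  rw [this, g1, g2, g4, hp]
  have k1 : (T ^ 3 * om ^ 2) ^ 3 - (T ^ 3 * om ^ 2) ^ 2 + T ^ 3 * om ^ 2 - 1
      = T ^ 9 - om * T ^ 6 + om ^ 2 * T ^ 3 - 1 := by
    linear_combination (T ^ 9 * (om ^ 3 + 1) - T ^ 6 * om) * h3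
  have k2 : (T * om ^ 2) ^ 3 - (T * om ^ 2) ^ 2 + T * om ^ 2 - 1
      = T ^ 3 - om * T ^ 2 + om ^ 2 * T - 1 := by
    linear_combination (T ^ 3 * (om ^ 3 + 1) - T ^ 2 * om) * h3
  have k3 : (F ^ 3 * om) ^ 3 = F ^ 9 := by linear_combination F ^ 9 * h3
  have k4 : (F * om) ^ 3 = F ^ 3 := by linear_combination F ^ 3 * h3
  rw [k1, k2, k3, k4]; ring

theorem g3_nonneg (φ : ℝ) : 0 ≤ g3 φ :=
  mul_nonneg (by linarith [Real.cos_le_one φ]) (sq_nonneg _)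

theorem sig_nonneg (x : ℝ) : 0 ≤ sig x := by
  unfold sig
  have := g3_nonneg
  have h1 := g3_nonneg (Real.pi * (x - 4) / 6)
  have h2 := g3_nonneg (Real.pi * (x - 12) / 18)
  have h3 := g3_nonneg (Real.pi * x / 18)
  positivity

theorem g3_periodic : Function.Periodic g3 (2 * Real.pi) := by
  intro φ; unfold g3; rw [Real.cos_periodic]

theorem sig_periodic (x : ℝ) : sig (x + 36) = sig x := by
  have p := g3_periodic
  have h1 : g3 (Real.pi * (x + 36 - 4) / 6) = g3 (Real.pi * (x - 4) / 6) := by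
    have : Real.pi * (x + 36 - 4) / 6 = Real.pi * (x - 4) / 6 + (3 : ℕ) • (2 * Real.pi) := by
      rw [nsmul_eq_mul]; push_cast; ring
    rw [this]; exact (p.nsmul 3) _
  have h2 : g3 (Real.pi * (x + 36 - 12) / 18) = g3 (Real.pi * (x - 12) / 18) := by
    have : Real.pi * (x + 36 - 12) / 18 = Real.pi * (x - 12) / 18 + 2 * Real.pi := by ring
    rw [this]; exact p _
  have h3 : g3 (Real.pi * (x + 36) / 18) = g3 (Real.pi * x / 18) := by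
    have : Real.pi * (x + 36) / 18 = Real.pi * x / 18 + 2 * Real.pi := by ring
    rw [this]; exact p _
  unfold sig; rw [h1, h2, h3]

theorem sig_periodic_int (x : ℝ) (m : ℤ) : sig (x + 36 * m) = sig x := by
  have : Function.Periodic sig 36 := sig_periodic
  have := this.int_mul m x
  rwa [mul_comm] at this

/-- the fifteen classes -/
def R36 : Finset ℕ := {0, 1, 3, 4, 7, 9, 12, 13, 16, 19, 21, 25, 27, 28, 31}

theorem g3_zero_of {φ : ℝ} (h : Real.cos φ = 1 ∨ Real.cos φ = 0) : g3 φ = 0 := by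
  unfold g3; rcases h with h | h <;> rw [h] <;> norm_num

theorem sig_zero_class (r : ℕ) (hr : r ∈ R36) : sig r = 0 := by
  have c0 : ∀ k : ℤ, Real.cos (Real.pi / 2 + k * Real.pi) = 0 := by
    intro k
    rw [Real.cos_eq_zero_iff]; exact ⟨k, by ring⟩
  have c1 : ∀ k : ℤ, Real.cos (k * (2 * Real.pi)) = 1 := fun k => Real.cos_int_mul_two_pi k
  have A : ∀ x : ℝ, g3 (Real.pi * (x - 4) / 6) = 0 → sig x = 0 := by
    intro x h; unfold sig; rw [h]; ring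
  have B : ∀ x : ℝ, g3 (Real.pi * (x - 12) / 18) = 0 → sig x = 0 := by
    intro x h; unfold sig; rw [h]; ring
  have C : ∀ x : ℝ, g3 (Real.pi * x / 18) = 0 → sig x = 0 := by
    intro x h; unfold sig; rw [h]; ring
  have hA1 : ∀ x : ℝ, ∀ k : ℤ, Real.pi * (x - 4) / 6 = k * (2 * Real.pi) → sig x = 0 :=
    fun x k h => A x (g3_zero_of (Or.inl (by rw [h]; exact c1 k)))
  have hA0 : ∀ x : ℝ, ∀ k : ℤ, Real.pi * (x - 4) / 6 = Real.pi / 2 + k * Real.pi → sig x = 0 :=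
    fun x k h => A x (g3_zero_of (Or.inr (by rw [h]; exact c0 k)))
  have hB1 : ∀ x : ℝ, ∀ k : ℤ, Real.pi * (x - 12) / 18 = k * (2 * Real.pi) → sig x = 0 :=
    fun x k h => B x (g3_zero_of (Or.inl (by rw [h]; exact c1 k)))
  have hB0 : ∀ x : ℝ, ∀ k : ℤ, Real.pi * (x - 12) / 18 = Real.pi / 2 + k * Real.pi → sig x = 0 :=
    fun x k h => B x (g3_zero_of (Or.inr (by rw [h]; exact c0 k)))
  have hC1 : ∀ x : ℝ, ∀ k : ℤ, Real.pi * x / 18 = k * (2 * Real.pi) → sig x = 0 :=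
    fun x k h => C x (g3_zero_of (Or.inl (by rw [h]; exact c1 k)))
  have hC0 : ∀ x : ℝ, ∀ k : ℤ, Real.pi * x / 18 = Real.pi / 2 + k * Real.pi → sig x = 0 :=
    fun x k h => C x (g3_zero_of (Or.inr (by rw [h]; exact c0 k)))
  simp only [R36, Finset.mem_insert, Finset.mem_singleton] at hr
  rcases hr with rfl | rfl | rfl | rfl | rfl | rfl | rfl | rfl | rfl | rfl | rfl | rfl | rfl | rfl | rfl
  · exact hC1 _ 0 (by push_cast; ring)
  · exact hA0 _ (-1) (by push_cast; ring)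
  · exact hB0 _ (-1) (by push_cast; ring)
  · exact hA1 _ 0 (by push_cast; ring)
  · exact hA0 _ 0 (by push_cast; ring)
  · exact hC0 _ 0 (by push_cast; ring)
  · exact hB1 _ 0 (by push_cast; ring)
  · exact hA0 _ 1 (by push_cast; ring)
  · exact hA1 _ 1 (by push_cast; ring)
  · exact hA0 _ 2 (by push_cast; ring)
  · exact hB0 _ 0 (by push_cast; ring)
  · exact hA0 _ 3 (by push_cast; ring)
  · exact hC0 _ 1 (by push_cast; ring)
  · exact hA1 _ 2 (by push_cast; ring)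
  · exact hA0 _ 4 (by push_cast; ring)

/-- the node set -/
def nodeS : Set ℤ := {n | (n % 36).toNat ∈ R36}

theorem sig_node (n : ℤ) (hn : n ∈ nodeS) : sig n = 0 := by
  have h := sig_zero_class _ hn
  have e : (n : ℝ) = (((n % 36).toNat : ℕ) : ℝ) + 36 * ((n / 36 : ℤ) : ℝ) := by
    have h0 : 0 ≤ n % 36 := Int.emod_nonneg _ (by norm_num)
    have h1 : (((n % 36).toNat : ℕ) : ℤ) = n % 36 := Int.toNat_of_nonneg h0
    have h2 : n = ((n % 36).toNat : ℤ) + 36 * (n / 36) := by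
      rw [h1]; exact (Int.emod_add_mul_ediv n 36).symm
    exact_mod_cast h2
  rw [e, sig_periodic_int, h]

/-- Loeschian numbers are nodes. -/
theorem loe_node (a b : ℤ) : a ^ 2 + a * b + b ^ 2 ∈ nodeS := by
  have key : ∀ x : Fin 36, ∀ y : Fin 36,
      ((((x : ℕ) : ℤ) ^ 2 + (x : ℕ) * (y : ℕ) + ((y : ℕ) : ℤ) ^ 2) % 36).toNat ∈ R36 := by decide
  have e : (a ^ 2 + a * b + b ^ 2) % 36
      = ((a % 36) ^ 2 + (a % 36) * (b % 36) + (b % 36) ^ 2) % 36 := by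
    have h1 : a ≡ a % 36 [ZMOD 36] := (Int.mod_modEq a 36).symm
    have h2 : b ≡ b % 36 [ZMOD 36] := (Int.mod_modEq b 36).symm
    exact ((h1.pow 2).add (h1.mul h2)).add (h2.pow 2)
  have ha : 0 ≤ a % 36 := Int.emod_nonneg _ (by norm_num)
  have ha' : a % 36 < 36 := Int.emod_lt_of_pos _ (by norm_num)
  have hb : 0 ≤ b % 36 := Int.emod_nonneg _ (by norm_num)
  have hb' : b % 36 < 36 := Int.emod_lt_of_pos _ (by norm_num)
  have hx : ((a % 36).toNat : ℤ) = a % 36 := Int.toNat_of_nonneg ha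
  have hy : ((b % 36).toNat : ℤ) = b % 36 := Int.toNat_of_nonneg hb
  have := key ⟨(a % 36).toNat, by omega⟩ ⟨(b % 36).toNat, by omega⟩
  simp only [hx, hy] at this
  show ((a ^ 2 + a * b + b ^ 2) % 36).toNat ∈ R36
  rw [e]; exact this

end

end Pool.Agent.Helper95.CE
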