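import Mathlib
import Pool.Agent.Helper95.CE.S36
import Pool.Agent.Helper95.CE.Card

/-!
# Derivatives of `sig`, double zeros, kernels of the cardinal functions
-/

namespace Pool.Agent.Helper95.CE

open Complex Finset MeasureTheory

noncomputable section

/-- `r`-th derivative of `sigC` -/
def sigD (r : ℕ) (z : ℂ) : ℂ := ∑ k ∈ range 31, aN k * (I * th36 k) ^ r * exp (I * th36 k * z)

theorem sigD_zero (z : ℂ) : sigD 0 z = sigC z := by
  unfold sigD sigC; exact Finset.sum_congr rfl fun k _ => by rw [pow_zero, mul_one]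

theorem sigD_hasDerivAt (r : ℕ) (z : ℂ) : HasDerivAt (sigD r) (sigD (r + 1) z) z := by
  unfold sigD
  have h : ∀ k ∈ range 31, HasDerivAt (fun z => aN k * (I * th36 k) ^ r * exp (I * th36 k * z))
      (aN k * (I * th36 k) ^ (r + 1) * exp (I * th36 k * z)) z := by
    intro k _
    have e2 : HasDerivAt (fun z : ℂ => exp (I * th36 k * z)) (exp (I * th36 k * z) * (I * th36 k * 1)) z :=
      ((hasDerivAt_id z).const_mul (I * (th36 k : ℂ))).cexp
    exact (e2.const_mul (aN k * (I * th36 k) ^ r)).congr_deriv (by ring)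
  exact HasDerivAt.fun_sum h

/-- `r`-th derivative of `sig` -/
def sigR (r : ℕ) (x : ℝ) : ℝ := (sigD r x).re

theorem sigR_zero (x : ℝ) : sigR 0 x = sig x := by
  unfold sigR; rw [sigD_zero, ← sig_eq, ofReal_re]

theorem sigR_hasDerivAt (r : ℕ) (x : ℝ) : HasDerivAt (sigR r) (sigR (r + 1) x) x := by
  have h := (sigD_hasDerivAt r (x : ℂ)).real_of_complex
  exact h

theorem sig_hasDerivAt (x : ℝ) : HasDerivAt sig (sigR 1 x) x := by
  have h := sigR_hasDerivAt 0 x
  have e : sigR 0 = sig := funext sigR_zero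
  rwa [e] at h

theorem sigD_im (r : ℕ) (x : ℝ) : (sigD r x).im = 0 := by
  induction r generalizing x with
  | zero => rw [sigD_zero, ← sig_eq, ofReal_im]
  | succ r ih =>
    have h : HasDerivAt (fun x : ℝ => sigD r (x : ℂ)) (sigD (r + 1) x) x := by
      have h1 := (sigD_hasDerivAt r (x : ℂ)).comp_ofReal
      exact h1
    have h2 : HasDerivAt (fun x : ℝ => (sigD r (x : ℂ)).im) (sigD (r + 1) x).im x := by
      have := (Complex.imCLM.hasFDerivAt (x := sigD r (x : ℂ))).comp_hasDerivAt x h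
      exact this
    have h3 : (fun x : ℝ => (sigD r (x : ℂ)).im) = fun _ => 0 := funext ih
    rw [h3] at h2
    exact h2.unique (hasDerivAt_const x 0)

theorem sigD_real (r : ℕ) (x : ℝ) : sigD r x = ((sigR r x : ℝ) : ℂ) := by
  apply Complex.ext
  · rw [ofReal_re]; rfl
  · rw [ofReal_im]; exact sigD_im r x

/-- derivative vanishes at zeros of `sig` -/
theorem sigR_one_of_zero (x : ℝ) (h : sig x = 0) : sigR 1 x = 0 := by
  have hmin : IsLocalMin sig x :=
    Filter.Eventually.of_forall fun y => by rw [h]; exact sig_nonneg y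
  exact hmin.hasDerivAt_eq_zero (sig_hasDerivAt x)

theorem sigR_one_node (n : ℤ) (hn : n ∈ nodeS) : sigR 1 n = 0 :=
  sigR_one_of_zero _ (sig_node n hn)

theorem sigR_periodic_int (r : ℕ) (x : ℝ) (m : ℤ) : sigR r (x + 36 * m) = sigR r x := by
  have e : sigD r ((x + 36 * m : ℝ) : ℂ) = sigD r (x : ℂ) := by
    unfold sigD
    refine Finset.sum_congr rfl fun k _ => ?_
    congr 1
    have : I * th36 k * ((x + 36 * m : ℝ) : ℂ) = I * th36 k * x + (((k : ℤ) - 15) * m : ℤ) * (2 * Real.pi * I) := by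
      unfold th36; push_cast; ring
    rw [this, exp_add, exp_int_mul_two_pi_mul_I, mul_one]
  unfold sigR; rw [e]

theorem th36_abs (k : ℕ) (hk : k ∈ range 31) : |th36 k| ≤ 5 * Real.pi / 6 := by
  have h1 : k ≤ 30 := by have := Finset.mem_range.1 hk; omega
  have h2 : (k : ℝ) ≤ 30 := by exact_mod_cast h1
  have h3 : (0 : ℝ) ≤ k := Nat.cast_nonneg k
  have hp := Real.pi_pos
  unfold th36
  rw [abs_le]; constructor <;> nlinarith

/-- coefficients of the translate `σ_j(y) = sig(j + y)` -/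
def bJ (j : ℤ) (k : ℕ) : ℂ := aN k * exp (I * th36 k * j)

theorem bJ_sum (j : ℤ) (hj : j ∈ nodeS) : ∑ k ∈ range 31, bJ j k = 0 := by
  have h : ∑ k ∈ range 31, bJ j k = sigD 0 ((j : ℝ) : ℂ) := by
    rw [sigD_zero]; unfold bJ sigC; simp
  rw [h, sigD_real, sigR_zero, sig_node j hj]; simp

theorem bJ_sum1 (j : ℤ) (hj : j ∈ nodeS) : ∑ k ∈ range 31, bJ j k * (th36 k : ℂ) = 0 := by
  have h : I * ∑ k ∈ range 31, bJ j k * (th36 k : ℂ) = sigD 1 ((j : ℝ) : ℂ) := by
    unfold bJ sigD; rw [Finset.mul_sum]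
    exact Finset.sum_congr rfl fun k _ => by push_cast; ring
  have h2 : I * ∑ k ∈ range 31, bJ j k * (th36 k : ℂ) = 0 := by
    rw [h, sigD_real, sigR_one_node j hj]; simp
  exact (mul_eq_zero.1 h2).resolve_left I_ne_zero

/-- kernel of `sig(x)/(x-j)²` -/
def kapJ (j : ℤ) (θ : ℝ) : ℂ := kap (range 31) (bJ j) th36 θ
/-- kernel of `sig(x)/(x-j)` -/
def rhoJ (j : ℤ) (θ : ℝ) : ℂ := rho (range 31) (bJ j) th36 θ

theorem bJ_translate (j : ℤ) (z : ℂ) :
    ∑ k ∈ range 31, bJ j k * exp (I * th36 k * (z - j)) = sigC z := by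
  unfold bJ sigC
  refine Finset.sum_congr rfl fun k _ => ?_
  rw [mul_assoc, ← exp_add]; congr 2; ring

/-- **`sig(z)/(z-j)²` is a superposition of exponentials with frequencies in `[-5π/6, 5π/6]`.** -/
theorem kapJ_int (j : ℤ) (hj : j ∈ nodeS) (z : ℂ) (hz : z ≠ j) :
    ∫ θ in (-(5 * Real.pi / 6))..(5 * Real.pi / 6), kapJ j θ * exp (I * θ * (z - j))
      = sigC z / (z - j) ^ 2 := by
  rw [← bJ_translate j z]
  exact kap_int (range 31) (bJ j) th36 _ th36_abs (bJ_sum j hj) (bJ_sum1 j hj) _ (sub_ne_zero.2 hz)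

theorem rhoJ_int (j : ℤ) (hj : j ∈ nodeS) (z : ℂ) (hz : z ≠ j) :
    ∫ θ in (-(5 * Real.pi / 6))..(5 * Real.pi / 6), rhoJ j θ * exp (I * θ * (z - j))
      = sigC z / (z - j) := by
  rw [← bJ_translate j z]
  exact rho_int (range 31) (bJ j) th36 _ th36_abs (bJ_sum j hj) _ (sub_ne_zero.2 hz)

theorem kapJ_cont (j : ℤ) : Continuous (kapJ j) := kap_cont _ _ _
theorem rhoJ_meas (j : ℤ) : Measurable (rhoJ j) := rho_meas _ _ _

theorem kapJ_out (j : ℤ) (hj : j ∈ nodeS) (θ : ℝ) (hθ : 5 * Real.pi / 6 ≤ |θ|) : kapJ j θ = 0 :=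
  kap_out _ _ _ _ th36_abs (bJ_sum j hj) (bJ_sum1 j hj) θ hθ
theorem rhoJ_out (j : ℤ) (hj : j ∈ nodeS) (θ : ℝ) (hθ : 5 * Real.pi / 6 < |θ|) : rhoJ j θ = 0 :=
  rho_out _ _ _ _ th36_abs (bJ_sum j hj) θ hθ

end

end Pool.Agent.Helper95.CE
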