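import Mathlib

/-!
# Enclosures of the 72nd roots of unity
-/

namespace Pool.Agent.Helper95.CE

open Complex

noncomputable section

def cT : List ℤ := [1000000000000, 996194698092, 984807753012, 965925826289, 939692620786, 906307787037,
  866025403784, 819152044289, 766044443119, 707106781187, 642787609687, 573576436351,
  500000000000, 422618261741, 342020143326, 258819045103, 173648177667, 87155742748, 0,
  -87155742748, -173648177667, -258819045103, -342020143326, -422618261741, -500000000000,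
  -573576436351, -642787609687, -707106781187, -766044443119, -819152044289, -866025403784,
  -906307787037, -939692620786, -965925826289, -984807753012, -996194698092, -1000000000000,
  -996194698092, -984807753012, -965925826289, -939692620786, -906307787037, -866025403784,
  -819152044289, -766044443119, -707106781187, -642787609687, -573576436351, -500000000000,
  -422618261741, -342020143326, -258819045103, -173648177667, -87155742748, 0, 87155742748,
  173648177667, 258819045103, 342020143326, 422618261741, 500000000000, 573576436351,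
  642787609687, 707106781187, 766044443119, 819152044289, 866025403784, 906307787037,
  939692620786, 965925826289, 984807753012, 996194698092]
def sT : List ℤ := [0, 87155742748, 173648177667, 258819045103, 342020143326, 422618261741, 500000000000,
  573576436351, 642787609687, 707106781187, 766044443119, 819152044289, 866025403784,
  906307787037, 939692620786, 965925826289, 984807753012, 996194698092, 1000000000000,
  996194698092, 984807753012, 965925826289, 939692620786, 906307787037, 866025403784,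
  819152044289, 766044443119, 707106781187, 642787609687, 573576436351, 500000000000,
  422618261741, 342020143326, 258819045103, 173648177667, 87155742748, 0, -87155742748,
  -173648177667, -258819045103, -342020143326, -422618261741, -500000000000, -573576436351,
  -642787609687, -707106781187, -766044443119, -819152044289, -866025403784, -906307787037,
  -939692620786, -965925826289, -984807753012, -996194698092, -1000000000000, -996194698092,
  -984807753012, -965925826289, -939692620786, -906307787037, -866025403784, -819152044289,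
  -766044443119, -707106781187, -642787609687, -573576436351, -500000000000, -422618261741,
  -342020143326, -258819045103, -173648177667, -87155742748]

/-- `e^{iπ/36}` -/
def zeta : ℂ := exp (I * (Real.pi / 36 : ℝ))

def qT (k : ℕ) : ℂ := ((cT.getD k 0 : ℤ) + (sT.getD k 0 : ℤ) * I) / 10 ^ 12

theorem norm_zeta : ‖zeta‖ = 1 := by
  unfold zeta; rw [mul_comm]; exact norm_exp_ofReal_mul_I _

theorem zeta_one : ‖zeta - qT 1‖ ≤ 1 / 10 ^ 12 := by
  have hx : |Real.pi / 36 - 0.0872664625997164788| ≤ 1 / 10 ^ 18 := by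
    have h1 := Real.pi_gt_d20
    have h2 := Real.pi_lt_d20
    rw [abs_le]; constructor <;> linarith
  set x0 : ℝ := 0.0872664625997164788 with hx0
  have e1 : zeta - exp (I * (x0 : ℂ)) = exp (I * (x0 : ℂ)) *
      (exp (I * ((Real.pi / 36 - x0 : ℝ) : ℂ)) - 1) := by
    rw [mul_sub, mul_one, ← exp_add]; unfold zeta; congr 2; push_cast; ring
  have e2 : ‖zeta - exp (I * (x0 : ℂ))‖ ≤ 1 / 10 ^ 18 := by
    rw [e1, norm_mul]
    have : ‖exp (I * (x0 : ℂ))‖ = 1 := by rw [mul_comm]; exact norm_exp_ofReal_mul_I _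
    rw [this, one_mul]
    exact (Real.norm_exp_I_mul_ofReal_sub_one_le).trans (by rw [Real.norm_eq_abs]; exact hx)
  have e3 := Complex.exp_bound (x := I * (x0 : ℂ)) (n := 9) (by
    rw [norm_mul, norm_I, one_mul, Complex.norm_real, Real.norm_eq_abs]
    rw [abs_of_nonneg] <;> norm_num [hx0]) (by norm_num)
  have e4 : ‖I * (x0 : ℂ)‖ = x0 := by
    rw [norm_mul, norm_I, one_mul, Complex.norm_real, Real.norm_eq_abs, abs_of_nonneg]
    norm_num [hx0]
  rw [e4] at e3
  have e5 : (∑ m ∈ Finset.range 9, (I * (x0 : ℂ)) ^ m / (m.factorial : ℂ))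
      = ((1 - x0 ^ 2 / 2 + x0 ^ 4 / 24 - x0 ^ 6 / 720 + x0 ^ 8 / 40320 : ℝ) : ℂ)
        + ((x0 - x0 ^ 3 / 6 + x0 ^ 5 / 120 - x0 ^ 7 / 5040 : ℝ) : ℂ) * I := by
    simp only [Finset.sum_range_succ, Finset.sum_range_zero, Nat.factorial]
    push_cast
    have hI : I ^ 2 = -1 := I_sq
    have h3 : I ^ 3 = -I := by linear_combination I * hI
    have h4 : I ^ 4 = 1 := by linear_combination (I ^ 2 - 1) * hI
    have h5 : I ^ 5 = I := by linear_combination I * h4
    have h6 : I ^ 6 = -1 := by linear_combination I ^ 2 * h4 + hI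
    have h7 : I ^ 7 = -I := by linear_combination I ^ 3 * h4 + h3
    have h8 : I ^ 8 = 1 := by linear_combination (I ^ 4 + 1) * h4
    simp only [mul_pow, hI, h3, h4, h5, h6, h7, h8]
    ring
  rw [e5] at e3
  have e6 : ‖((1 - x0 ^ 2 / 2 + x0 ^ 4 / 24 - x0 ^ 6 / 720 + x0 ^ 8 / 40320 : ℝ) : ℂ)
        + ((x0 - x0 ^ 3 / 6 + x0 ^ 5 / 120 - x0 ^ 7 / 5040 : ℝ) : ℂ) * I - qT 1‖ ≤ 8 / 10 ^ 13 := by
    have : ((1 - x0 ^ 2 / 2 + x0 ^ 4 / 24 - x0 ^ 6 / 720 + x0 ^ 8 / 40320 : ℝ) : ℂ)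
        + ((x0 - x0 ^ 3 / 6 + x0 ^ 5 / 120 - x0 ^ 7 / 5040 : ℝ) : ℂ) * I - qT 1
        = ((1 - x0 ^ 2 / 2 + x0 ^ 4 / 24 - x0 ^ 6 / 720 + x0 ^ 8 / 40320
            - 996194698092 / 10 ^ 12 : ℝ) : ℂ)
        + ((x0 - x0 ^ 3 / 6 + x0 ^ 5 / 120 - x0 ^ 7 / 5040 - 87155742748 / 10 ^ 12 : ℝ) : ℂ) * I := by
      have hq : qT 1 = (996194698092 + 87155742748 * I) / 10 ^ 12 := by
        unfold qT cT sT; norm_num
      rw [hq]; push_cast; ring
    rw [this]
    refine (norm_add_le _ _).trans ?_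
    rw [norm_mul, norm_I, mul_one, Complex.norm_real, Complex.norm_real, Real.norm_eq_abs,
      Real.norm_eq_abs]
    have a1 : |1 - x0 ^ 2 / 2 + x0 ^ 4 / 24 - x0 ^ 6 / 720 + x0 ^ 8 / 40320
            - 996194698092 / 10 ^ 12| ≤ 4 / 10 ^ 13 := by
      rw [hx0, abs_le]; constructor <;> norm_num
    have a2 : |x0 - x0 ^ 3 / 6 + x0 ^ 5 / 120 - x0 ^ 7 / 5040 - 87155742748 / 10 ^ 12|
        ≤ 4 / 10 ^ 13 := by
      rw [hx0, abs_le]; constructor <;> norm_num
    linarith
  have e7 : x0 ^ 9 * ((Nat.succ 9 : ℝ) * ((Nat.factorial 9 : ℝ) * (9 : ℕ))⁻¹) ≤ 1 / 10 ^ 14 := by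
    rw [hx0]; norm_num [Nat.factorial]
  have e8 := e3.trans e7
  calc ‖zeta - qT 1‖ = ‖(zeta - exp (I * (x0 : ℂ))) + (exp (I * (x0 : ℂ)) -
        (((1 - x0 ^ 2 / 2 + x0 ^ 4 / 24 - x0 ^ 6 / 720 + x0 ^ 8 / 40320 : ℝ) : ℂ)
        + ((x0 - x0 ^ 3 / 6 + x0 ^ 5 / 120 - x0 ^ 7 / 5040 : ℝ) : ℂ) * I)) +
        ((((1 - x0 ^ 2 / 2 + x0 ^ 4 / 24 - x0 ^ 6 / 720 + x0 ^ 8 / 40320 : ℝ) : ℂ)
        + ((x0 - x0 ^ 3 / 6 + x0 ^ 5 / 120 - x0 ^ 7 / 5040 : ℝ) : ℂ) * I) - qT 1)‖ := by
        congr 1; ring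
    _ ≤ 1 / 10 ^ 18 + 1 / 10 ^ 14 + 8 / 10 ^ 13 :=
        (norm_add₃_le).trans (add_le_add (add_le_add e2 e8) e6)
    _ ≤ 1 / 10 ^ 12 := by norm_num

theorem step_check : ∀ k < 71,
    |cT.getD (k + 1) 0 * 10 ^ 12 - (cT.getD k 0 * cT.getD 1 0 - sT.getD k 0 * sT.getD 1 0)| ≤ 10 ^ 12 ∧
    |sT.getD (k + 1) 0 * 10 ^ 12 - (cT.getD k 0 * sT.getD 1 0 + sT.getD k 0 * cT.getD 1 0)| ≤ 10 ^ 12 ∧
    |cT.getD k 0| ≤ 10 ^ 12 ∧ |sT.getD k 0| ≤ 10 ^ 12 := by decide +kernel

theorem zeta_pow (k : ℕ) (hk : k < 72) : ‖zeta ^ k - qT k‖ ≤ 4 * k / 10 ^ 12 := by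
  induction k with
  | zero =>
    have : qT 0 = 1 := by unfold qT cT sT; norm_num
    rw [this]; simp
  | succ k ih =>
    have ih' := ih (by omega)
    obtain ⟨s1, s2, s3, s4⟩ := step_check k (by omega)
    have hq : ‖qT k‖ ≤ 2 := by
      unfold qT
      rw [norm_div, norm_pow]
      have h10 : ‖(10 : ℂ)‖ = 10 := by norm_num
      rw [h10, div_le_iff₀ (by positivity)]
      refine (norm_add_le _ _).trans ?_
      rw [norm_mul, norm_I, mul_one]
      have a1 : ‖((cT.getD k 0 : ℤ) : ℂ)‖ ≤ 10 ^ 12 := by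
        rw [Complex.norm_intCast]; exact_mod_cast s3
      have a2 : ‖((sT.getD k 0 : ℤ) : ℂ)‖ ≤ 10 ^ 12 := by
        rw [Complex.norm_intCast]; exact_mod_cast s4
      linarith
    have hst : ‖qT k * qT 1 - qT (k + 1)‖ ≤ 2 / 10 ^ 12 := by
      have e : qT k * qT 1 - qT (k + 1) =
          ((-(cT.getD (k + 1) 0 * 10 ^ 12 - (cT.getD k 0 * cT.getD 1 0 - sT.getD k 0 * sT.getD 1 0)) : ℤ) : ℂ)
            / 10 ^ 24 +
          ((-(sT.getD (k + 1) 0 * 10 ^ 12 - (cT.getD k 0 * sT.getD 1 0 + sT.getD k 0 * cT.getD 1 0)) : ℤ) : ℂ)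
            * I / 10 ^ 24 := by
        unfold qT
        generalize cT.getD (k + 1) 0 = a
        generalize sT.getD (k + 1) 0 = b
        generalize cT.getD k 0 = c
        generalize sT.getD k 0 = d
        generalize cT.getD 1 0 = e
        generalize sT.getD 1 0 = f
        push_cast
        linear_combination ((d : ℂ) * f / 10 ^ 24) * I_sq
      rw [e]
      refine (norm_add_le _ _).trans ?_
      rw [norm_div, norm_div, norm_mul, norm_I, mul_one, norm_pow, Complex.norm_intCast,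
        Complex.norm_intCast]
      have h10 : ‖(10 : ℂ)‖ = 10 := by norm_num
      rw [h10]
      have b1 : |((-(cT.getD (k + 1) 0 * 10 ^ 12 - (cT.getD k 0 * cT.getD 1 0
          - sT.getD k 0 * sT.getD 1 0)) : ℤ) : ℝ)| ≤ 10 ^ 12 := by
        rw [← abs_neg] at s1; exact_mod_cast s1
      have b2 : |((-(sT.getD (k + 1) 0 * 10 ^ 12 - (cT.getD k 0 * sT.getD 1 0
          + sT.getD k 0 * cT.getD 1 0)) : ℤ) : ℝ)| ≤ 10 ^ 12 := by
        rw [← abs_neg] at s2; exact_mod_cast s2
      rw [← add_div, div_le_div_iff₀ (by positivity) (by positivity)]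
      calc _ ≤ (10 ^ 12 + 10 ^ 12 : ℝ) * 10 ^ 12 :=
            mul_le_mul_of_nonneg_right (add_le_add b1 b2) (by positivity)
        _ = 2 * 10 ^ 24 := by norm_num
    have e : zeta ^ (k + 1) - qT (k + 1) = (zeta ^ k - qT k) * zeta + qT k * (zeta - qT 1)
        + (qT k * qT 1 - qT (k + 1)) := by ring
    rw [e]
    refine (norm_add₃_le).trans ?_
    rw [norm_mul, norm_mul, norm_zeta, mul_one]
    have h3 : ‖qT k‖ * ‖zeta - qT 1‖ ≤ 2 * (1 / 10 ^ 12) :=
      mul_le_mul hq zeta_one (norm_nonneg _) (by norm_num)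
    calc _ ≤ (4 * k / 10 ^ 12 + 2 * (1 / 10 ^ 12) + 2 / 10 ^ 12 : ℝ) :=
          add_le_add (add_le_add ih' h3) hst
      _ = 4 * ((k + 1 : ℕ) : ℝ) / 10 ^ 12 := by push_cast; ring

theorem zeta_pow72 : zeta ^ 72 = 1 := by
  unfold zeta; rw [← exp_nat_mul]
  have : ((72 : ℕ) : ℂ) * (I * ((Real.pi / 36 : ℝ) : ℂ)) = 2 * Real.pi * I := by push_cast; ring
  rw [this, exp_two_pi_mul_I]

theorem zeta_mod (n : ℕ) : zeta ^ n = zeta ^ (n % 72) := by
  conv_lhs => rw [← Nat.div_add_mod n 72, pow_add, pow_mul, zeta_pow72, one_pow, one_mul]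

theorem zeta_mod_approx (n : ℕ) : ‖zeta ^ n - qT (n % 72)‖ ≤ 3 / 10 ^ 10 := by
  rw [zeta_mod]
  have h := zeta_pow (n % 72) (Nat.mod_lt _ (by norm_num))
  refine h.trans ?_
  have h2 : n % 72 ≤ 71 := by have := Nat.mod_lt n (by norm_num : 0 < 72); omega
  have h3 : ((n % 72 : ℕ) : ℝ) ≤ 71 := by exact_mod_cast h2
  rw [div_le_div_iff₀ (by positivity) (by positivity)]
  nlinarith

end

end Pool.Agent.Helper95.CE
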