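import Mathlib
import Pool.Agent.Helper95.CE.S36b
import Pool.Agent.Helper95.CE.Tab

/-!
# Numerical values attached to the 15 residues
-/

namespace Pool.Agent.Helper95.CE

open Complex Finset MeasureTheory

noncomputable section

def sumN : ℕ → (ℕ → ℤ) → ℤ
  | 0, _ => 0
  | n + 1, f => sumN n f + f n

theorem sumN_eq (n : ℕ) (f : ℕ → ℤ) : sumN n f = ∑ k ∈ range n, f k := by
  induction n with
  | zero => rfl
  | succ n ih => rw [Finset.sum_range_succ, ← ih]; rfl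

def bqR (j k : ℕ) : ℤ :=
  (uL.getD k 0 + vL.getD k 0) * cT.getD (((2 * k + 42) * j) % 72) 0
    + 2 * vL.getD k 0 * cT.getD (((2 * k + 42) * j + 24) % 72) 0
def bqI (j k : ℕ) : ℤ :=
  (uL.getD k 0 + vL.getD k 0) * sT.getD (((2 * k + 42) * j) % 72) 0
    + 2 * vL.getD k 0 * sT.getD (((2 * k + 42) * j + 24) % 72) 0

theorem coef_check : ∀ k < 31, |uL.getD k 0 + vL.getD k 0| + 2 * |vL.getD k 0| ≤ 30 := by
  decide +kernel

theorem om_zeta : om = zeta ^ 24 := by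
  unfold zeta
  rw [← exp_nat_mul, ← exp_tt]; congr 1; push_cast; ring

theorem exp_th_zeta (j k : ℕ) : exp (I * th36 k * (j : ℤ)) = zeta ^ ((2 * k + 42) * j) := by
  unfold zeta
  rw [← exp_nat_mul]
  have : (((2 * k + 42) * j : ℕ) : ℂ) * (I * ((Real.pi / 36 : ℝ) : ℂ))
      = I * th36 k * (j : ℤ) + (j : ℤ) * (2 * Real.pi * I) := by
    unfold th36; push_cast; ring
  rw [this, exp_add, exp_int_mul_two_pi_mul_I, mul_one]

theorem bq_approx (j k : ℕ) (hk : k < 31) :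
    ‖2 * bJ j k - ((bqR j k : ℤ) + (bqI j k : ℤ) * I) / 10 ^ 12‖ ≤ 1 / 10 ^ 8 := by
  have h1 := zeta_mod_approx ((2 * k + 42) * j)
  have h2 := zeta_mod_approx ((2 * k + 42) * j + 24)
  have hc := coef_check k hk
  have hb : 2 * bJ j k = ((uL.getD k 0 + vL.getD k 0 : ℤ) : ℂ) * zeta ^ ((2 * k + 42) * j)
      + ((2 * vL.getD k 0 : ℤ) : ℂ) * zeta ^ ((2 * k + 42) * j + 24) := by
    unfold bJ aN
    rw [exp_th_zeta, om_zeta, pow_add]; push_cast; ring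
  have hq : ((bqR j k : ℤ) + (bqI j k : ℤ) * I : ℂ) / 10 ^ 12
      = ((uL.getD k 0 + vL.getD k 0 : ℤ) : ℂ) * qT (((2 * k + 42) * j) % 72)
      + ((2 * vL.getD k 0 : ℤ) : ℂ) * qT (((2 * k + 42) * j + 24) % 72) := by
    unfold bqR bqI qT; push_cast; ring
  have e : 2 * bJ j k - ((bqR j k : ℤ) + (bqI j k : ℤ) * I) / 10 ^ 12
      = ((uL.getD k 0 + vL.getD k 0 : ℤ) : ℂ) *
          (zeta ^ ((2 * k + 42) * j) - qT (((2 * k + 42) * j) % 72))
      + ((2 * vL.getD k 0 : ℤ) : ℂ) *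
          (zeta ^ ((2 * k + 42) * j + 24) - qT (((2 * k + 42) * j + 24) % 72)) := by
    rw [hb, hq]; ring
  rw [e]
  refine (norm_add_le _ _).trans ?_
  rw [norm_mul, norm_mul, Complex.norm_intCast, Complex.norm_intCast]
  have hc' : |((uL.getD k 0 + vL.getD k 0 : ℤ) : ℝ)| + |((2 * vL.getD k 0 : ℤ) : ℝ)| ≤ 30 := by
    have : |uL.getD k 0 + vL.getD k 0| + |2 * vL.getD k 0| ≤ 30 := by
      rw [abs_mul]; simpa using hc
    exact_mod_cast this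
  have a1 := mul_le_mul_of_nonneg_left h1 (abs_nonneg ((uL.getD k 0 + vL.getD k 0 : ℤ) : ℝ))
  have a2 := mul_le_mul_of_nonneg_left h2 (abs_nonneg ((2 * vL.getD k 0 : ℤ) : ℝ))
  calc _ ≤ |((uL.getD k 0 + vL.getD k 0 : ℤ) : ℝ)| * (3 / 10 ^ 10)
        + |((2 * vL.getD k 0 : ℤ) : ℝ)| * (3 / 10 ^ 10) := add_le_add a1 a2
    _ = (|((uL.getD k 0 + vL.getD k 0 : ℤ) : ℝ)| + |((2 * vL.getD k 0 : ℤ) : ℝ)|) * (3 / 10 ^ 10) := by
        ring
    _ ≤ 30 * (3 / 10 ^ 10) := mul_le_mul_of_nonneg_right hc' (by norm_num)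
    _ ≤ 1 / 10 ^ 8 := by norm_num

/-- weighted sums of the coefficients -/
theorem w_approx (w : ℕ → ℤ) (j : ℕ) :
    ‖∑ k ∈ range 31, (w k : ℂ) * (2 * bJ j k)
      - ((sumN 31 fun k => w k * bqR j k : ℤ) + (sumN 31 fun k => w k * bqI j k : ℤ) * I) / 10 ^ 12‖
      ≤ (sumN 31 fun k => |w k| : ℤ) / 10 ^ 8 := by
  have e : ∑ k ∈ range 31, (w k : ℂ) * (2 * bJ j k)
      - ((sumN 31 fun k => w k * bqR j k : ℤ) + (sumN 31 fun k => w k * bqI j k : ℤ) * I) / 10 ^ 12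
      = ∑ k ∈ range 31, (w k : ℂ) *
        (2 * bJ j k - ((bqR j k : ℤ) + (bqI j k : ℤ) * I) / 10 ^ 12) := by
    rw [sumN_eq, sumN_eq]
    push_cast
    rw [Finset.sum_mul, ← Finset.sum_add_distrib, Finset.sum_div, ← Finset.sum_sub_distrib]
    exact Finset.sum_congr rfl fun k _ => by ring
  rw [e, sumN_eq]
  refine (norm_sum_le _ _).trans ?_
  push_cast
  rw [Finset.sum_div]
  refine Finset.sum_le_sum fun k hk => ?_
  rw [norm_mul, Complex.norm_intCast]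
  have := bq_approx j k (Finset.mem_range.1 hk)
  calc |(w k : ℝ)| * _ ≤ |(w k : ℝ)| * (1 / 10 ^ 8) := mul_le_mul_of_nonneg_left this (abs_nonneg _)
    _ = |(w k : ℝ)| / 10 ^ 8 := by ring

/-- `h_j = sig''(j)/2` -/
def hJ (j : ℤ) : ℝ := sigR 2 j / 2
/-- `t_j = sig'''(j)/6` -/
def tJ (j : ℤ) : ℝ := sigR 3 j / 6

def w2 (k : ℕ) : ℤ := ((k : ℤ) - 15) ^ 2
def w3 (k : ℕ) : ℤ := ((k : ℤ) - 15) ^ 3

theorem hJ_eq (j : ℤ) : (hJ j : ℂ) = -(Real.pi ^ 2 / 1296) * ∑ k ∈ range 31, (w2 k : ℂ) * (2 * bJ j k) := by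
  have h := sigD_real 2 (j : ℝ)
  have e : (hJ j : ℂ) = sigD 2 ((j : ℝ) : ℂ) / 2 := by rw [h]; unfold hJ; push_cast; ring
  rw [e]; unfold sigD bJ w2 th36
  rw [Finset.mul_sum, Finset.sum_div]
  refine Finset.sum_congr rfl fun k _ => ?_
  push_cast
  linear_combination (aN k * exp (I * (Real.pi * (k - 15) / 18) * j) * (Real.pi * (k - 15) / 18) ^ 2 / 2) * I_sq

theorem tJ_eq (j : ℤ) : (tJ j : ℂ) = -I * (Real.pi ^ 3 / 69984) * ∑ k ∈ range 31, (w3 k : ℂ) * (2 * bJ j k) := by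
  have h := sigD_real 3 (j : ℝ)
  have e : (tJ j : ℂ) = sigD 3 ((j : ℝ) : ℂ) / 6 := by rw [h]; unfold tJ; push_cast; ring
  rw [e]; unfold sigD bJ w3 th36
  rw [Finset.mul_sum, Finset.sum_div]
  refine Finset.sum_congr rfl fun k _ => ?_
  push_cast
  linear_combination (I * aN k * exp (I * (Real.pi * (k - 15) / 18) * j) * (Real.pi * (k - 15) / 18) ^ 3 / 6) * I_sq

end

end Pool.Agent.Helper95.CE
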