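import Mathlib
import Pool.Agent.Helper95.CE.Kn

/-!
# Enclosures of `h_r`, `t_r`, `t_r/h_r` (the 15 residues)
-/

namespace Pool.Agent.Helper95.CE

open Complex Finset MeasureTheory

noncomputable section

/-- `10^8 h_r` -/
def hT : List ℤ := [109662271, 32467925, 0, 15746794, 24009547, 0, 0, 159457401, 0, 219324542, 0, 0, 109662271,
  140381070, 0, 0, 1650376589, 0, 0, 2079718423, 0, 3054796798, 0, 0, 0, 1495705262, 0,
  219324542, 299534745, 0, 0, 3987953440, 0, 0, 0, 0]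
/-- `10^8 t_r` -/
def tT : List ℤ := [-309408334, 10666108, 0, -16915172, 47017290, 0, 0, -23038326, 0, 102994388, 0, 0, -154704167,
  267728948, 0, 0, 568470050, 0, 0, -546991519, 0, 2050169940, 0, 0, 0, -1656451797, 0,
  -279799151, 577944805, 0, 0, 1948086586, 0, 0, 0, 0]
/-- `10^8 t_r/h_r` -/
def rT : List ℤ := [-282146568, 32851215, 0, -107419783, 195827476, 0, 0, -14447950, 0, 46959810, 0, 0, -141073284,
  190715848, 0, 0, 34444869, 0, 0, -26301230, 0, 67113136, 0, 0, 0, -110747207, 0, -127573115,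
  192947501, 0, 0, 48849281, 0, 0, 0, 0]

theorem re_q (a b : ℤ) : (((a : ℂ) + (b : ℂ) * I) / 10 ^ 12).re = (a : ℝ) / 10 ^ 12 := by
  have : ((a : ℂ) + (b : ℂ) * I) / 10 ^ 12 = (((a : ℝ) / 10 ^ 12 : ℝ) : ℂ)
      + (((b : ℝ) / 10 ^ 12 : ℝ) : ℂ) * I := by push_cast; ring
  rw [this, add_re, ofReal_re, re_ofReal_mul, I_re]; ring

theorem im_q (a b : ℤ) : (((a : ℂ) + (b : ℂ) * I) / 10 ^ 12).im = (b : ℝ) / 10 ^ 12 := by
  have : ((a : ℂ) + (b : ℂ) * I) / 10 ^ 12 = (((a : ℝ) / 10 ^ 12 : ℝ) : ℂ)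
      + (((b : ℝ) / 10 ^ 12 : ℝ) : ℂ) * I := by push_cast; ring
  rw [this, add_im, ofReal_im, im_ofReal_mul, I_im]; ring

theorem pi_bounds : |Real.pi - 3.14159265358979323846| ≤ 1 / 10 ^ 20 := by
  have h1 := Real.pi_gt_d20
  have h2 := Real.pi_lt_d20
  rw [abs_le]; constructor <;> linarith

theorem pi2_bounds : |Real.pi ^ 2 - 9.8696044010893586| ≤ 1 / 10 ^ 15 := by
  have h1 := Real.pi_gt_d20
  have h2 := Real.pi_lt_d20
  have h3 : (3.14159265358979323846 : ℝ) ^ 2 ≤ Real.pi ^ 2 :=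
    pow_le_pow_left₀ (by norm_num) h1.le 2
  have h4 : Real.pi ^ 2 ≤ (3.14159265358979323847 : ℝ) ^ 2 :=
    pow_le_pow_left₀ Real.pi_pos.le h2.le 2
  rw [abs_le]; constructor <;> norm_num at h3 h4 ⊢ <;> linarith

theorem pi3_bounds : |Real.pi ^ 3 - 31.0062766802998202| ≤ 1 / 10 ^ 15 := by
  have h1 := Real.pi_gt_d20
  have h2 := Real.pi_lt_d20
  have h3 : (3.14159265358979323846 : ℝ) ^ 3 ≤ Real.pi ^ 3 :=
    pow_le_pow_left₀ (by norm_num) h1.le 3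
  have h4 : Real.pi ^ 3 ≤ (3.14159265358979323847 : ℝ) ^ 3 :=
    pow_le_pow_left₀ Real.pi_pos.le h2.le 3
  rw [abs_le]; constructor <;> norm_num at h3 h4 ⊢ <;> linarith

def HWi (r : ℕ) : ℤ := sumN 31 fun k => w2 k * bqR r k
def TWi (r : ℕ) : ℤ := sumN 31 fun k => w3 k * bqI r k

theorem h_check : ∀ r ∈ R36,
    |-98696044010893586 * HWi r - hT.getD r 0 * 1296 * 10 ^ 20| ≤ 1296 * 10 ^ 20 ∧
    |HWi r| ≤ 10 ^ 16 := by decide +kernel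

theorem t_check : ∀ r ∈ R36,
    |310062766802998202 * TWi r - tT.getD r 0 * 69984 * 10 ^ 20| ≤ 69984 * 10 ^ 20 ∧
    |TWi r| ≤ 10 ^ 18 := by decide +kernel

theorem hJ_approx (r : ℕ) (hr : r ∈ R36) : |hJ r - (hT.getD r 0 : ℤ) / 10 ^ 8| ≤ 3 / 10 ^ 7 := by
  obtain ⟨c1, c2⟩ := h_check r hr
  have hw := w_approx w2 r
  have hs : ((sumN 31 fun k => |w2 k| : ℤ) : ℝ) = 2480 := by
    have : (sumN 31 fun k => |w2 k|) = 2480 := by decide +kernel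
    rw [this]; norm_num
  rw [hs] at hw
  have hre : hJ (r : ℤ) = -(Real.pi ^ 2 / 1296) * (∑ k ∈ range 31, (w2 k : ℂ) * (2 * bJ r k)).re := by
    have := congrArg Complex.re (hJ_eq (r : ℤ))
    rw [ofReal_re] at this
    rw [this]
    have : (-(Real.pi ^ 2 / 1296) : ℂ) = ((-(Real.pi ^ 2 / 1296) : ℝ) : ℂ) := by push_cast; ring
    rw [this, re_ofReal_mul]
  have hd : |(∑ k ∈ range 31, (w2 k : ℂ) * (2 * bJ r k)).re - (HWi r : ℝ) / 10 ^ 12| ≤ 2480 / 10 ^ 8 := by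
    have h1 := (Complex.abs_re_le_norm _).trans hw
    have h2 : (((sumN 31 fun k => w2 k * bqR r k : ℤ) + (sumN 31 fun k => w2 k * bqI r k : ℤ) * I : ℂ)
        / 10 ^ 12).re = (HWi r : ℝ) / 10 ^ 12 := by rw [re_q]; rfl
    rwa [sub_re, h2] at h1
  set S := (∑ k ∈ range 31, (w2 k : ℂ) * (2 * bJ r k)).re
  have p2 := pi2_bounds
  have hp : Real.pi ^ 2 ≤ 10 := by have := (abs_le.1 p2).2; linarith
  have hp0 : 0 ≤ Real.pi ^ 2 := sq_nonneg _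
  have c1' : |(-98696044010893586 : ℝ) * HWi r - (hT.getD r 0 : ℤ) * 1296 * 10 ^ 20| ≤ 1296 * 10 ^ 20 := by
    exact_mod_cast c1
  have c2' : |(HWi r : ℝ)| ≤ 10 ^ 16 := by exact_mod_cast c2
  have e : hJ (r : ℤ) - (hT.getD r 0 : ℤ) / 10 ^ 8
      = -(Real.pi ^ 2 / 1296) * (S - (HWi r : ℝ) / 10 ^ 12)
        + -(1 / 1296) * (Real.pi ^ 2 - 9.8696044010893586) * ((HWi r : ℝ) / 10 ^ 12)
        + ((-98696044010893586 : ℝ) * HWi r - (hT.getD r 0 : ℤ) * 1296 * 10 ^ 20) / (1296 * 10 ^ 28) := by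
    rw [hre]; ring
  rw [e]
  refine (abs_add_three _ _ _).trans ?_
  have a1 : |-(Real.pi ^ 2 / 1296) * (S - (HWi r : ℝ) / 10 ^ 12)| ≤ 10 / 1296 * (2480 / 10 ^ 8) := by
    rw [abs_mul, abs_neg, abs_of_nonneg (by positivity)]
    exact mul_le_mul (by linarith) hd (abs_nonneg _) (by norm_num)
  have a2 : |-(1 / 1296) * (Real.pi ^ 2 - 9.8696044010893586) * ((HWi r : ℝ) / 10 ^ 12)|
      ≤ 1 / 1296 * (1 / 10 ^ 15) * (10 ^ 16 / 10 ^ 12) := by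
    rw [abs_mul, abs_mul, abs_neg, abs_of_pos (by norm_num : (0:ℝ) < 1 / 1296), abs_div,
      abs_of_pos (by norm_num : (0:ℝ) < 10 ^ 12)]
    gcongr
  have a3 : |((-98696044010893586 : ℝ) * HWi r - (hT.getD r 0 : ℤ) * 1296 * 10 ^ 20) / (1296 * 10 ^ 28)|
      ≤ 1296 * 10 ^ 20 / (1296 * 10 ^ 28) := by
    rw [abs_div, abs_of_pos (by norm_num : (0:ℝ) < 1296 * 10 ^ 28)]
    gcongr
  calc _ ≤ (10 / 1296 * (2480 / 10 ^ 8) + 1 / 1296 * (1 / 10 ^ 15) * (10 ^ 16 / 10 ^ 12)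
        + 1296 * 10 ^ 20 / (1296 * 10 ^ 28) : ℝ) := add_le_add (add_le_add a1 a2) a3
    _ ≤ 3 / 10 ^ 7 := by norm_num

theorem tJ_approx (r : ℕ) (hr : r ∈ R36) : |tJ r - (tT.getD r 0 : ℤ) / 10 ^ 8| ≤ 3 / 10 ^ 7 := by
  obtain ⟨c1, c2⟩ := t_check r hr
  have hw := w_approx w3 r
  have hs : ((sumN 31 fun k => |w3 k| : ℤ) : ℝ) = 28800 := by
    have : (sumN 31 fun k => |w3 k|) = 28800 := by decide +kernel
    rw [this]; norm_num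
  rw [hs] at hw
  have hre : tJ (r : ℤ) = (Real.pi ^ 3 / 69984) * (∑ k ∈ range 31, (w3 k : ℂ) * (2 * bJ r k)).im := by
    have := congrArg Complex.re (tJ_eq (r : ℤ))
    rw [ofReal_re] at this
    rw [this]
    have : (-I * (Real.pi ^ 3 / 69984) : ℂ) = ((Real.pi ^ 3 / 69984 : ℝ) : ℂ) * (-I) := by
      push_cast; ring
    rw [this, mul_assoc, re_ofReal_mul]; simp
  have hd : |(∑ k ∈ range 31, (w3 k : ℂ) * (2 * bJ r k)).im - (TWi r : ℝ) / 10 ^ 12| ≤ 28800 / 10 ^ 8 := by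
    have h1 := (Complex.abs_im_le_norm _).trans hw
    have h2 : (((sumN 31 fun k => w3 k * bqR r k : ℤ) + (sumN 31 fun k => w3 k * bqI r k : ℤ) * I : ℂ)
        / 10 ^ 12).im = (TWi r : ℝ) / 10 ^ 12 := by rw [im_q]; rfl
    rwa [sub_im, h2] at h1
  set S := (∑ k ∈ range 31, (w3 k : ℂ) * (2 * bJ r k)).im
  have p2 := pi3_bounds
  have hp : Real.pi ^ 3 ≤ 32 := by have := (abs_le.1 p2).2; linarith
  have hp0 : 0 ≤ Real.pi ^ 3 := pow_nonneg Real.pi_pos.le _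
  have c1' : |(310062766802998202 : ℝ) * TWi r - (tT.getD r 0 : ℤ) * 69984 * 10 ^ 20| ≤ 69984 * 10 ^ 20 := by
    exact_mod_cast c1
  have c2' : |(TWi r : ℝ)| ≤ 10 ^ 18 := by exact_mod_cast c2
  have e : tJ (r : ℤ) - (tT.getD r 0 : ℤ) / 10 ^ 8
      = (Real.pi ^ 3 / 69984) * (S - (TWi r : ℝ) / 10 ^ 12)
        + (1 / 69984) * (Real.pi ^ 3 - 31.0062766802998202) * ((TWi r : ℝ) / 10 ^ 12)
        + ((310062766802998202 : ℝ) * TWi r - (tT.getD r 0 : ℤ) * 69984 * 10 ^ 20) / (69984 * 10 ^ 28) := by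
    rw [hre]; ring
  rw [e]
  refine (abs_add_three _ _ _).trans ?_
  have a1 : |(Real.pi ^ 3 / 69984) * (S - (TWi r : ℝ) / 10 ^ 12)| ≤ 32 / 69984 * (28800 / 10 ^ 8) := by
    rw [abs_mul, abs_of_nonneg (by positivity)]
    exact mul_le_mul (by linarith) hd (abs_nonneg _) (by norm_num)
  have a2 : |(1 / 69984) * (Real.pi ^ 3 - 31.0062766802998202) * ((TWi r : ℝ) / 10 ^ 12)|
      ≤ 1 / 69984 * (1 / 10 ^ 15) * (10 ^ 18 / 10 ^ 12) := by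
    rw [abs_mul, abs_mul, abs_of_pos (by norm_num : (0:ℝ) < 1 / 69984), abs_div,
      abs_of_pos (by norm_num : (0:ℝ) < 10 ^ 12)]
    gcongr
  have a3 : |((310062766802998202 : ℝ) * TWi r - (tT.getD r 0 : ℤ) * 69984 * 10 ^ 20) / (69984 * 10 ^ 28)|
      ≤ 69984 * 10 ^ 20 / (69984 * 10 ^ 28) := by
    rw [abs_div, abs_of_pos (by norm_num : (0:ℝ) < 69984 * 10 ^ 28)]
    gcongr
  calc _ ≤ (32 / 69984 * (28800 / 10 ^ 8) + 1 / 69984 * (1 / 10 ^ 15) * (10 ^ 18 / 10 ^ 12)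
        + 69984 * 10 ^ 20 / (69984 * 10 ^ 28) : ℝ) := add_le_add (add_le_add a1 a2) a3
    _ ≤ 3 / 10 ^ 7 := by norm_num

theorem h_lower : ∀ r ∈ R36, 15700000 ≤ hT.getD r 0 := by decide +kernel

theorem hJ_pos (r : ℕ) (hr : r ∈ R36) : 0.156 ≤ hJ r := by
  have h1 := (abs_le.1 (hJ_approx r hr)).1
  have h2 : (15700000 : ℝ) ≤ (hT.getD r 0 : ℤ) := by exact_mod_cast h_lower r hr
  linarith

theorem r_check : ∀ r ∈ R36,
    |tT.getD r 0 * 10 ^ 8 - rT.getD r 0 * hT.getD r 0| * 10 ^ 8 + 30 * (10 ^ 8 + |rT.getD r 0|) * 10 ^ 8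
      ≤ 600 * (hT.getD r 0 - 30) * 10 ^ 8 := by decide +kernel

/-- `t_r/h_r` -/
theorem r_approx (r : ℕ) (hr : r ∈ R36) : |tJ r / hJ r - (rT.getD r 0 : ℤ) / 10 ^ 8| ≤ 6 / 10 ^ 6 := by
  have h1 := hJ_approx r hr
  have h2 := tJ_approx r hr
  have hpos : 0 < hJ r := by have := hJ_pos r hr; linarith
  have c := r_check r hr
  generalize hT.getD r 0 = a at *
  generalize tT.getD r 0 = b at *
  generalize rT.getD r 0 = q at *
  have c' : |(b : ℝ) * 10 ^ 8 - q * a| * 10 ^ 8 + 30 * (10 ^ 8 + |(q : ℝ)|) * 10 ^ 8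
      ≤ 600 * (a - 30) * 10 ^ 8 := by exact_mod_cast c
  have e : tJ r / hJ r - (q : ℝ) / 10 ^ 8 = (tJ r - (q : ℝ) / 10 ^ 8 * hJ r) / hJ r := by
    field_simp
  rw [e, abs_div, abs_of_pos hpos, div_le_iff₀ hpos]
  have e2 : tJ r - (q : ℝ) / 10 ^ 8 * hJ r = (tJ r - b / 10 ^ 8) - q / 10 ^ 8 * (hJ r - a / 10 ^ 8)
      + (b * 10 ^ 8 - q * a) / 10 ^ 16 := by ring
  rw [e2]
  have a1 : |(tJ r - b / 10 ^ 8) - q / 10 ^ 8 * (hJ r - a / 10 ^ 8) + (b * 10 ^ 8 - q * a) / 10 ^ 16|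
      ≤ 3 / 10 ^ 7 + |(q : ℝ)| / 10 ^ 8 * (3 / 10 ^ 7) + |(b : ℝ) * 10 ^ 8 - q * a| / 10 ^ 16 := by
    refine (abs_add_le _ _).trans (add_le_add ((abs_sub _ _).trans (add_le_add h2 ?_)) ?_)
    · rw [abs_mul, abs_div, abs_of_pos (by norm_num : (0:ℝ) < 10 ^ 8)]
      gcongr
    · rw [abs_div, abs_of_pos (by norm_num : (0:ℝ) < 10 ^ 16)]
  refine a1.trans ?_
  have h3 := (abs_le.1 h1).1
  have h4 : (a : ℝ) / 10 ^ 8 - 3 / 10 ^ 7 ≤ hJ r := by linarith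
  refine le_trans ?_ (mul_le_mul_of_nonneg_left h4 (by norm_num : (0:ℝ) ≤ 6 / 10 ^ 6))
  have : (3 / 10 ^ 7 + |(q : ℝ)| / 10 ^ 8 * (3 / 10 ^ 7) + |(b : ℝ) * 10 ^ 8 - q * a| / 10 ^ 16) * 10 ^ 24
      = |(b : ℝ) * 10 ^ 8 - q * a| * 10 ^ 8 + 30 * (10 ^ 8 + |(q : ℝ)|) * 10 ^ 8 := by ring
  have h6 : (6 / 10 ^ 6 * ((a : ℝ) / 10 ^ 8 - 3 / 10 ^ 7)) * 10 ^ 24 = 600 * (a - 30) * 10 ^ 8 := by ring
  have h5 : (3 / 10 ^ 7 + |(q : ℝ)| / 10 ^ 8 * (3 / 10 ^ 7) + |(b : ℝ) * 10 ^ 8 - q * a| / 10 ^ 16) * 10 ^ 24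
      ≤ (6 / 10 ^ 6 * ((a : ℝ) / 10 ^ 8 - 3 / 10 ^ 7)) * 10 ^ 24 := by
    rw [this, h6]; exact c'
  exact le_of_mul_le_mul_right h5 (by positivity)

end

end Pool.Agent.Helper95.CE
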