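import Mathlib
import Pool.Agent.Helper95.CE.Kn2

/-!
# L¹ norms of the kernels of the cardinal functions
-/

namespace Pool.Agent.Helper95.CE

open Complex Finset MeasureTheory intervalIntegral

noncomputable section

theorem piece_L1 {F : ℝ → ℂ} {a b : ℝ} (hab : a < b) {P Q : ℂ}
    (hF : ∀ θ ∈ Set.Ioc a b, F θ = P + ((θ - a) / (b - a) : ℝ) * (Q - P)) :
    IntervalIntegrable F volume a b ∧ ∫ θ in a..b, ‖F θ‖ ≤ (b - a) * (‖P‖ + ‖Q‖) / 2 := by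
  have hba : 0 < b - a := sub_pos.2 hab
  have c1 : Continuous fun θ : ℝ => P + ((θ - a) / (b - a) : ℝ) * (Q - P) := by fun_prop
  have ii : IntervalIntegrable F volume a b := by
    refine (c1.intervalIntegrable a b).congr_ae ?_
    refine (ae_restrict_iff' measurableSet_uIoc).2 (Filter.Eventually.of_forall fun θ hθ => ?_)
    rw [Set.uIoc_of_le hab.le] at hθ
    exact (hF θ hθ).symm
  refine ⟨ii, ?_⟩
  have e1 : ∫ θ in a..b, ‖F θ‖ = ∫ θ in a..b, ‖P + ((θ - a) / (b - a) : ℝ) * (Q - P)‖ := by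
    rw [integral_of_le hab.le, integral_of_le hab.le]
    exact setIntegral_congr_fun measurableSet_Ioc fun θ hθ => by
      show ‖F θ‖ = _
      rw [hF θ hθ]
  rw [e1]
  have c2 : Continuous fun θ : ℝ => (1 - (θ - a) / (b - a)) * ‖P‖ + (θ - a) / (b - a) * ‖Q‖ := by
    fun_prop
  have e2 : ∫ θ in a..b, ‖P + ((θ - a) / (b - a) : ℝ) * (Q - P)‖
      ≤ ∫ θ in a..b, ((1 - (θ - a) / (b - a)) * ‖P‖ + (θ - a) / (b - a) * ‖Q‖) := by
    refine integral_mono_on hab.le (c1.norm.intervalIntegrable a b) (c2.intervalIntegrable a b)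
      fun θ hθ => ?_
    have l0 : 0 ≤ (θ - a) / (b - a) := div_nonneg (by linarith [hθ.1]) hba.le
    have l1 : (θ - a) / (b - a) ≤ 1 := (div_le_one hba).2 (by linarith [hθ.2])
    have : P + ((θ - a) / (b - a) : ℝ) * (Q - P)
        = ((1 - (θ - a) / (b - a) : ℝ) : ℂ) * P + ((θ - a) / (b - a) : ℝ) * Q := by push_cast; ring
    rw [this]
    refine (norm_add_le _ _).trans ?_
    rw [norm_mul, norm_mul, Complex.norm_real, Complex.norm_real, Real.norm_eq_abs,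
      Real.norm_eq_abs, abs_of_nonneg l0, abs_of_nonneg (by linarith)]
  refine e2.trans (le_of_eq ?_)
  have hd : ∀ θ : ℝ, HasDerivAt (fun θ : ℝ => ‖P‖ * θ + (‖Q‖ - ‖P‖) * (θ - a) ^ 2 / (2 * (b - a)))
      ((1 - (θ - a) / (b - a)) * ‖P‖ + (θ - a) / (b - a) * ‖Q‖) θ := by
    intro θ
    have h1 := (hasDerivAt_id θ).const_mul ‖P‖
    have h2 := ((((hasDerivAt_id θ).sub_const a).pow 2).const_mul (‖Q‖ - ‖P‖)).div_const (2 * (b - a))
    refine (h1.add h2).congr_deriv ?_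
    simp only [id]
    field_simp
    ring
  rw [integral_eq_sub_of_hasDerivAt (fun θ _ => hd θ) (c2.intervalIntegrable a b)]
  field_simp
  ring

/-- coefficients depend on the residue only -/
theorem bJ_residue (j m : ℤ) (k : ℕ) : bJ (j + 36 * m) k = bJ j k := by
  unfold bJ
  have : I * th36 k * ((j + 36 * m : ℤ) : ℂ) = I * th36 k * j + (((k : ℤ) - 15) * m : ℤ) * (2 * Real.pi * I) := by
    unfold th36; push_cast; ring
  rw [this, exp_add, exp_int_mul_two_pi_mul_I, mul_one]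

theorem bJ_res (j : ℤ) : bJ j = bJ (((j % 36).toNat : ℕ) : ℤ) := by
  funext k
  have h0 : 0 ≤ j % 36 := Int.emod_nonneg _ (by norm_num)
  rw [Int.toNat_of_nonneg h0]
  conv_lhs => rw [← Int.emod_add_mul_ediv j 36]
  exact bJ_residue _ _ _

theorem kapJ_res (j : ℤ) : kapJ j = kapJ (((j % 36).toNat : ℕ) : ℤ) := by
  funext θ; unfold kapJ; rw [bJ_res j]
theorem rhoJ_res (j : ℤ) : rhoJ j = rhoJ (((j % 36).toNat : ℕ) : ℤ) := by
  funext θ; unfold rhoJ; rw [bJ_res j]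
theorem sigR_res (n : ℕ) (j : ℤ) : sigR n j = sigR n (((j % 36).toNat : ℕ) : ℤ) := by
  have h0 : 0 ≤ j % 36 := Int.emod_nonneg _ (by norm_num)
  rw [Int.toNat_of_nonneg h0]
  conv_lhs => rw [← Int.emod_add_mul_ediv j 36]
  push_cast
  exact sigR_periodic_int n _ _
theorem hJ_res (j : ℤ) : hJ j = hJ (((j % 36).toNat : ℕ) : ℤ) := by
  unfold hJ; rw [sigR_res 2 j]
theorem tJ_res (j : ℤ) : tJ j = tJ (((j % 36).toNat : ℕ) : ℤ) := by
  unfold tJ; rw [sigR_res 3 j]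

/-- kernel of the cardinal function with value 1 and derivative 0 at `j` -/
def KA (j : ℤ) (θ : ℝ) : ℂ := kapJ j θ / hJ j - (tJ j / hJ j ^ 2) * rhoJ j θ
/-- kernel of the cardinal function with value 0 and derivative 1 at `j` -/
def KB (j : ℤ) (θ : ℝ) : ℂ := rhoJ j θ / hJ j

theorem KA_res (j : ℤ) : KA j = KA (((j % 36).toNat : ℕ) : ℤ) := by
  funext θ; unfold KA; rw [kapJ_res j, rhoJ_res j, hJ_res j, tJ_res j]
theorem KB_res (j : ℤ) : KB j = KB (((j % 36).toNat : ℕ) : ℤ) := by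
  funext θ; unfold KB; rw [rhoJ_res j, hJ_res j]

def Wc (j : ℤ) (m : ℕ) : ℂ := ∑ k ∈ range 31, (((m - k : ℕ) : ℤ) : ℂ) * (2 * bJ j k)
def Vc (j : ℤ) (m : ℕ) : ℂ := ∑ k ∈ range 31, ((if k ≤ m then 1 else 0 : ℤ) : ℂ) * (2 * bJ j k)

theorem Wc_succ (j : ℤ) (m : ℕ) : Wc j (m + 1) = Wc j m + Vc j m := by
  unfold Wc Vc
  rw [← Finset.sum_add_distrib]
  refine Finset.sum_congr rfl fun k _ => ?_
  by_cases h : k ≤ m
  · rw [if_pos h]
    have : m + 1 - k = (m - k) + 1 := by omega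
    rw [this]; push_cast; ring
  · rw [if_neg h]
    have h1 : m + 1 - k = 0 := by omega
    have h2 : m - k = 0 := by omega
    rw [h1, h2]; push_cast; ring

theorem th36_succ (m : ℕ) : th36 (m + 1) = th36 m + Real.pi / 18 := by
  unfold th36; push_cast; ring

theorem th36_mono {k m : ℕ} (h : k ≤ m) : th36 k ≤ th36 m := by
  unfold th36
  have : (k : ℝ) ≤ m := by exact_mod_cast h
  have := Real.pi_pos
  gcongr

theorem rhoJ_piece (j : ℤ) (m : ℕ) (θ : ℝ) (hθ : θ ∈ Set.Ioc (th36 m) (th36 (m + 1))) :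
    rhoJ j θ = -(I / 2) * Vc j m := by
  unfold rhoJ rho Vc
  rw [Finset.mul_sum, Finset.mul_sum]
  refine Finset.sum_congr rfl fun k _ => ?_
  by_cases h : k ≤ m
  · rw [if_pos (lt_of_le_of_lt (th36_mono h) hθ.1), if_pos h]; push_cast; ring
  · have : ¬ th36 k < θ := not_lt.2 (hθ.2.trans (th36_mono (by omega)))
    rw [if_neg this, if_neg h]; push_cast; ring

theorem kapJ_piece (j : ℤ) (m : ℕ) (θ : ℝ) (hθ : θ ∈ Set.Ioc (th36 m) (th36 (m + 1))) :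
    kapJ j θ = -(Real.pi / 36) * (Wc j m + ((θ - th36 m) / (Real.pi / 18) : ℝ) * Vc j m) := by
  have hp := Real.pi_pos
  have hp' : (Real.pi : ℂ) ≠ 0 := by exact_mod_cast hp.ne'
  unfold kapJ kap Wc Vc
  rw [Finset.mul_sum, ← Finset.sum_add_distrib, Finset.mul_sum, ← Finset.sum_neg_distrib]
  refine Finset.sum_congr rfl fun k _ => ?_
  by_cases h : k ≤ m
  · rw [if_pos h, max_eq_left (by linarith [th36_mono h, hθ.1])]
    have e : ((m - k : ℕ) : ℤ) = (m : ℤ) - k := by push_cast [Nat.cast_sub h]; ring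
    rw [e]
    have e2 : θ - th36 k = (θ - th36 m) + Real.pi / 18 * ((m : ℝ) - k) := by
      unfold th36; ring
    rw [e2]; push_cast
    field_simp
    ring
  · have h2 : m - k = 0 := by omega
    rw [if_neg h, max_eq_right (by linarith [th36_mono (show m + 1 ≤ k by omega), hθ.2]), h2]
    push_cast; ring

/-- `P_m`: (scaled) right limit at `θ_m`; `Q_m`: left limit at `θ_{m+1}` -/
def PQ (j : ℤ) (m mm : ℕ) : ℂ :=
  -(Real.pi / 36) * Wc j mm + (tJ j / hJ j) * (I / 2) * Vc j m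

theorem KA_piece (j : ℤ) (hh : hJ j ≠ 0) (m : ℕ) (θ : ℝ) (hθ : θ ∈ Set.Ioc (th36 m) (th36 (m + 1))) :
    KA j θ = PQ j m m / hJ j + ((θ - th36 m) / (th36 (m + 1) - th36 m) : ℝ) *
      (PQ j m (m + 1) / hJ j - PQ j m m / hJ j) := by
  have hh' : (hJ j : ℂ) ≠ 0 := by exact_mod_cast hh
  have e : th36 (m + 1) - th36 m = Real.pi / 18 := by rw [th36_succ]; ring
  rw [e]
  unfold KA PQ
  rw [kapJ_piece j m θ hθ, rhoJ_piece j m θ hθ, Wc_succ]
  field_simp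
  ring

theorem KB_piece (j : ℤ) (m : ℕ) (θ : ℝ) (hθ : θ ∈ Set.Ioc (th36 m) (th36 (m + 1))) :
    KB j θ = -(I / 2) * Vc j m / hJ j + ((θ - th36 m) / (th36 (m + 1) - th36 m) : ℝ) *
      (-(I / 2) * Vc j m / hJ j - -(I / 2) * Vc j m / hJ j) := by
  unfold KB
  rw [rhoJ_piece j m θ hθ]; ring

theorem th36_zero : th36 0 = -(5 * Real.pi / 6) := by unfold th36; push_cast; ring
theorem th36_30 : th36 30 = 5 * Real.pi / 6 := by unfold th36; push_cast; ring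

theorem split_L1 {F : ℝ → ℂ} (P Q : ℕ → ℂ)
    (hF : ∀ m < 30, ∀ θ ∈ Set.Ioc (th36 m) (th36 (m + 1)),
      F θ = P m + ((θ - th36 m) / (th36 (m + 1) - th36 m) : ℝ) * (Q m - P m)) :
    IntervalIntegrable F volume (-(5 * Real.pi / 6)) (5 * Real.pi / 6) ∧
    ∫ θ in (-(5 * Real.pi / 6))..(5 * Real.pi / 6), ‖F θ‖
      ≤ Real.pi / 36 * ∑ m ∈ range 30, (‖P m‖ + ‖Q m‖) := by
  have hp := Real.pi_pos
  have hlt : ∀ m, th36 m < th36 (m + 1) := fun m => by rw [th36_succ]; linarith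
  have pc : ∀ m < 30, _ := fun m hm => piece_L1 (hlt m) (hF m hm)
  rw [← th36_zero, ← th36_30]
  constructor
  · exact IntervalIntegrable.trans_iterate (a := th36) (n := 30) fun m hm => (pc m hm).1
  · rw [← intervalIntegral.sum_integral_adjacent_intervals (a := th36) (n := 30)
      (fun m hm => (pc m hm).1.norm), Finset.mul_sum]
    refine Finset.sum_le_sum fun m hm => ?_
    refine (pc m (Finset.mem_range.1 hm)).2.trans (le_of_eq ?_)
    rw [th36_succ]; ring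

/-- upper bound of the integer square root -/
def newt : ℕ → ℕ → ℕ → ℕ
  | 0, _, U => U
  | f + 1, n, U => newt f n ((U + n / U) / 2)

def usq (n : ℕ) : ℕ :=
  let V := newt 8 n (2 ^ (Nat.log2 n / 2 + 1)) + 1
  (n / V + 1 + V) / 2 + 1

theorem usq_spec (n : ℕ) (x : ℝ) (hx : x ^ 2 ≤ n) : x ≤ usq n := by
  unfold usq
  generalize newt 8 n (2 ^ (Nat.log2 n / 2 + 1)) = U
  simp only
  have hV : (0 : ℝ) < ((U + 1 : ℕ) : ℝ) := by exact_mod_cast Nat.succ_pos U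
  have h1 : (n : ℝ) < ((n / (U + 1) + 1 : ℕ) : ℝ) * ((U + 1 : ℕ) : ℝ) := by
    have a := Nat.div_add_mod n (U + 1)
    have b := Nat.mod_lt n (Nat.succ_pos U)
    have : n < (n / (U + 1) + 1) * (U + 1) := by nlinarith
    exact_mod_cast this
  have h2 : ((n / (U + 1) + 1 + (U + 1) : ℕ) : ℝ) < 2 * (((n / (U + 1) + 1 + (U + 1)) / 2 + 1 : ℕ) : ℝ) := by
    have : n / (U + 1) + 1 + (U + 1) < 2 * ((n / (U + 1) + 1 + (U + 1)) / 2 + 1) := by omega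
    exact_mod_cast this
  by_contra hc
  push Not at hc
  set W : ℝ := (((n / (U + 1) + 1 + (U + 1)) / 2 + 1 : ℕ) : ℝ) with hW
  have hW0 : 0 ≤ W := Nat.cast_nonneg _
  push_cast at h1 h2 hV
  have e : ((n / (U + 1) : ℕ) : ℝ) + 1 + ((U : ℝ) + 1) < 2 * x := by linarith
  set A : ℝ := ((n / (U + 1) : ℕ) : ℝ) + 1
  set B : ℝ := (U : ℝ) + 1
  have hA : 0 ≤ A := by positivity
  nlinarith [sq_nonneg (A - B), mul_self_lt_mul_self (by positivity : 0 ≤ A + B) e]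

theorem norm_le_usq (a b : ℤ) : ‖((a : ℂ) + (b : ℂ) * I)‖ ≤ usq (a * a + b * b).toNat := by
  refine usq_spec _ _ ?_
  have h : 0 ≤ a * a + b * b := add_nonneg (mul_self_nonneg _) (mul_self_nonneg _)
  have e : (((a * a + b * b).toNat : ℕ) : ℝ) = ((a * a + b * b : ℤ) : ℝ) := by
    exact_mod_cast Int.toNat_of_nonneg h
  rw [e]
  have : ‖((a : ℂ) + (b : ℂ) * I)‖ ^ 2 = (a : ℝ) * a + b * b := by
    have h2 : ((a : ℂ) + (b : ℂ) * I) = (((a : ℝ) : ℂ) + ((b : ℝ) : ℂ) * I) := by push_cast; rfl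
    rw [h2, Complex.sq_norm, Complex.normSq_add_mul_I]; ring
  rw [this]; push_cast; exact le_rfl

def wRi (r m : ℕ) : ℤ := sumN 31 fun k => ((m - k : ℕ) : ℤ) * bqR r k
def wIi (r m : ℕ) : ℤ := sumN 31 fun k => ((m - k : ℕ) : ℤ) * bqI r k
def vRi (r m : ℕ) : ℤ := sumN 31 fun k => (if k ≤ m then 1 else 0) * bqR r k
def vIi (r m : ℕ) : ℤ := sumN 31 fun k => (if k ≤ m then 1 else 0) * bqI r k

def pRi (r m mm : ℕ) : ℤ := -87266462600 * wRi r mm - 5000 * rT.getD r 0 * vIi r m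
def pIi (r m mm : ℕ) : ℤ := -87266462600 * wIi r mm + 5000 * rT.getD r 0 * vRi r m

def SA (r : ℕ) : ℤ := sumN 30 fun m =>
  (usq (pRi r m m * pRi r m m + pIi r m m * pIi r m m).toNat : ℤ)
  + (usq (pRi r m (m + 1) * pRi r m (m + 1) + pIi r m (m + 1) * pIi r m (m + 1)).toNat : ℤ)
def SB (r : ℕ) : ℤ := sumN 30 fun m => (usq (vRi r m * vRi r m + vIi r m * vIi r m).toNat : ℤ)

/-- `10^4 ∫|KA|` (upper bounds) -/
def MAt : List ℤ := [825301, 493385, 0, 1104298, 1414105, 0, 0, 14224, 0, 27567, 0, 0, 156662, 163104, 0, 0, 10191,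
  0, 0, 10880, 0, 10382, 0, 0, 0, 20297, 0, 144466, 159038, 0, 0, 10138, 0, 0, 0, 0]
/-- `10^4 ∫|KB|` (upper bounds) -/
def MBt : List ℤ := [334970, 839142, 0, 1183077, 680630, 0, 0, 80169, 0, 53782, 0, 0, 106843, 91017, 0, 0, 12510, 0,
  0, 13037, 0, 15365, 0, 0, 0, 27761, 0, 114065, 87087, 0, 0, 14630, 0, 0, 0, 0]

theorem MA_check : ∀ r ∈ R36, 87266462601 * (SA r + 24 * 10 ^ 21) * 10 ^ 12
    ≤ MAt.getD r 0 * (hT.getD r 0 - 30) * 10 ^ 36 := by decide +kernel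

theorem MB_check : ∀ r ∈ R36, 87266462601 * (SB r + 930 * 10 ^ 4) * 10 ^ 12
    ≤ MBt.getD r 0 * (hT.getD r 0 - 30) * 10 ^ 24 := by decide +kernel

theorem size_check : ∀ r ∈ R36, ∀ m < 31, |wRi r m| + |wIi r m| ≤ 10 ^ 16 ∧
    |vRi r m| + |vIi r m| ≤ 60 * 10 ^ 12 ∧ |rT.getD r 0| ≤ 3 * 10 ^ 8 := by decide +kernel

theorem wsum_check : ∀ m < 31, (sumN 31 fun k => |((m - k : ℕ) : ℤ)|) ≤ 465 := by decide +kernel
theorem vsum_check : ∀ m < 31, (sumN 31 fun k => |(if k ≤ m then 1 else 0 : ℤ)|) ≤ 31 := by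
  decide +kernel

theorem Wc_approx (r m : ℕ) (hm : m < 31) :
    ‖Wc r m - ((wRi r m : ℤ) + (wIi r m : ℤ) * I) / 10 ^ 12‖ ≤ 465 / 10 ^ 8 := by
  refine (w_approx (fun k => ((m - k : ℕ) : ℤ)) r).trans ?_
  have : ((sumN 31 fun k => |((m - k : ℕ) : ℤ)| : ℤ) : ℝ) ≤ 465 := by exact_mod_cast wsum_check m hm
  gcongr

theorem Vc_approx (r m : ℕ) (hm : m < 31) :
    ‖Vc r m - ((vRi r m : ℤ) + (vIi r m : ℤ) * I) / 10 ^ 12‖ ≤ 31 / 10 ^ 8 := by
  refine (w_approx (fun k => (if k ≤ m then 1 else 0 : ℤ)) r).trans ?_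
  have : ((sumN 31 fun k => |(if k ≤ m then 1 else 0 : ℤ)| : ℤ) : ℝ) ≤ 31 := by
    exact_mod_cast vsum_check m hm
  gcongr

theorem norm_int_le (a b : ℤ) (B : ℝ) (h : |(a : ℝ)| + |(b : ℝ)| ≤ B * 10 ^ 12) :
    ‖((a : ℂ) + (b : ℂ) * I) / 10 ^ 12‖ ≤ B := by
  rw [norm_div, norm_pow]
  have h10 : ‖(10 : ℂ)‖ = 10 := by norm_num
  rw [h10, div_le_iff₀ (by positivity)]
  refine (norm_add_le _ _).trans ?_
  rw [norm_mul, norm_I, mul_one, Complex.norm_intCast, Complex.norm_intCast]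
  exact h

theorem PQ_approx (r : ℕ) (hr : r ∈ R36) (m mm : ℕ) (hm : m < 31) (hmm : mm < 31) :
    ‖PQ r m mm - ((pRi r m mm : ℤ) + (pIi r m mm : ℤ) * I) / 10 ^ 24‖ ≤ 4 / 10 ^ 4 := by
  have hW := Wc_approx r mm hmm
  have hV := Vc_approx r m hm
  obtain ⟨s1, -, -⟩ := size_check r hr mm hmm
  obtain ⟨-, s2, s3⟩ := size_check r hr m hm
  have hq := r_approx r hr
  have hpi := pi_bounds
  have e : PQ r m mm - ((pRi r m mm : ℤ) + (pIi r m mm : ℤ) * I) / 10 ^ 24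
      = -((Real.pi / 36 : ℝ) : ℂ) * (Wc r mm - ((wRi r mm : ℤ) + (wIi r mm : ℤ) * I) / 10 ^ 12)
        + -((Real.pi / 36 - 87266462600 / 10 ^ 12 : ℝ) : ℂ) * (((wRi r mm : ℤ) + (wIi r mm : ℤ) * I) / 10 ^ 12)
        + (((tJ r / hJ r : ℝ) : ℂ) * (I / 2)) * (Vc r m - ((vRi r m : ℤ) + (vIi r m : ℤ) * I) / 10 ^ 12)
        + (((tJ r / hJ r - (rT.getD r 0 : ℤ) / 10 ^ 8 : ℝ) : ℂ) * (I / 2))
          * (((vRi r m : ℤ) + (vIi r m : ℤ) * I) / 10 ^ 12) := by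
    unfold PQ pRi pIi
    generalize wRi r mm = a
    generalize wIi r mm = b
    generalize vRi r m = c
    generalize vIi r m = d
    generalize rT.getD r 0 = q
    push_cast
    linear_combination (5000 * (q : ℂ) * d / 10 ^ 24) * I_sq
  have hqa : |tJ r / hJ r| ≤ 3.1 := by
    have h3 : |((rT.getD r 0 : ℤ) : ℝ)| ≤ 3 * 10 ^ 8 := by exact_mod_cast s3
    have : tJ r / hJ r = (tJ r / hJ r - (rT.getD r 0 : ℤ) / 10 ^ 8) + (rT.getD r 0 : ℤ) / 10 ^ 8 := by ring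
    rw [this]
    refine (abs_add_le _ _).trans ?_
    have : |((rT.getD r 0 : ℤ) : ℝ) / 10 ^ 8| ≤ 3 := by
      rw [abs_div, abs_of_pos (by norm_num : (0:ℝ) < 10 ^ 8), div_le_iff₀ (by norm_num)]
      exact h3
    linarith
  have n1 : ‖(((wRi r mm : ℤ) : ℂ) + (wIi r mm : ℤ) * I) / 10 ^ 12‖ ≤ 10 ^ 4 :=
    norm_int_le _ _ _ (by
      have : |((wRi r mm : ℤ) : ℝ)| + |((wIi r mm : ℤ) : ℝ)| ≤ 10 ^ 16 := by exact_mod_cast s1
      linarith)
  have n2 : ‖(((vRi r m : ℤ) : ℂ) + (vIi r m : ℤ) * I) / 10 ^ 12‖ ≤ 60 :=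
    norm_int_le _ _ _ (by
      have : |((vRi r m : ℤ) : ℝ)| + |((vIi r m : ℤ) : ℝ)| ≤ 60 * 10 ^ 12 := by exact_mod_cast s2
      linarith)
  have hI2 : ‖(I / 2 : ℂ)‖ = 1 / 2 := by rw [norm_div, norm_I]; norm_num
  have hpa : |Real.pi / 36| ≤ 0.1 := by
    rw [abs_of_nonneg (by positivity)]; have := Real.pi_lt_d2; linarith
  have hpb : |Real.pi / 36 - 87266462600 / 10 ^ 12| ≤ 1 / 10 ^ 12 := by
    have := abs_le.1 hpi
    rw [abs_le]; constructor <;> linarith [this.1, this.2]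
  rw [e]
  refine (norm_add_le _ _).trans ?_
  refine (add_le_add (norm_add₃_le) le_rfl).trans ?_
  simp only [norm_mul, norm_neg, Complex.norm_real, Real.norm_eq_abs, hI2]
  have b1 := mul_le_mul hpa hW (norm_nonneg _) (by norm_num)
  have b2 := mul_le_mul hpb n1 (norm_nonneg _) (by norm_num)
  have b3 := mul_le_mul (mul_le_mul_of_nonneg_right hqa (by norm_num : (0:ℝ) ≤ 1 / 2)) hV
    (norm_nonneg _) (by norm_num)
  have b4 := mul_le_mul (mul_le_mul_of_nonneg_right hq (by norm_num : (0:ℝ) ≤ 1 / 2)) n2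
    (norm_nonneg _) (by norm_num)
  calc _ ≤ (0.1 * (465 / 10 ^ 8) + 1 / 10 ^ 12 * 10 ^ 4 + 3.1 * (1 / 2) * (31 / 10 ^ 8)
        + 6 / 10 ^ 6 * (1 / 2) * 60 : ℝ) := add_le_add (add_le_add (add_le_add b1 b2) b3) b4
    _ ≤ 4 / 10 ^ 4 := by norm_num

theorem PQ_le (r : ℕ) (hr : r ∈ R36) (m mm : ℕ) (hm : m < 31) (hmm : mm < 31) :
    ‖PQ r m mm‖ ≤ usq (pRi r m mm * pRi r m mm + pIi r m mm * pIi r m mm).toNat / 10 ^ 24
      + 4 / 10 ^ 4 := by
  have h1 := PQ_approx r hr m mm hm hmm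
  have h2 := norm_le_usq (pRi r m mm) (pIi r m mm)
  have h3 : ‖((pRi r m mm : ℤ) + (pIi r m mm : ℤ) * I : ℂ) / 10 ^ 24‖
      ≤ usq (pRi r m mm * pRi r m mm + pIi r m mm * pIi r m mm).toNat / 10 ^ 24 := by
    rw [norm_div, norm_pow]
    have h10 : ‖(10 : ℂ)‖ = 10 := by norm_num
    rw [h10]
    gcongr
  calc ‖PQ r m mm‖ = ‖((pRi r m mm : ℤ) + (pIi r m mm : ℤ) * I : ℂ) / 10 ^ 24
        + (PQ r m mm - ((pRi r m mm : ℤ) + (pIi r m mm : ℤ) * I) / 10 ^ 24)‖ := by congr 1; ring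
    _ ≤ _ := (norm_add_le _ _).trans (add_le_add h3 h1)

theorem Vc_le (r m : ℕ) (hm : m < 31) :
    ‖Vc r m‖ ≤ usq (vRi r m * vRi r m + vIi r m * vIi r m).toNat / 10 ^ 12 + 31 / 10 ^ 8 := by
  have h1 := Vc_approx r m hm
  have h2 := norm_le_usq (vRi r m) (vIi r m)
  have h3 : ‖((vRi r m : ℤ) + (vIi r m : ℤ) * I : ℂ) / 10 ^ 12‖
      ≤ usq (vRi r m * vRi r m + vIi r m * vIi r m).toNat / 10 ^ 12 := by
    rw [norm_div, norm_pow]
    have h10 : ‖(10 : ℂ)‖ = 10 := by norm_num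
    rw [h10]
    gcongr
  calc ‖Vc r m‖ = ‖((vRi r m : ℤ) + (vIi r m : ℤ) * I : ℂ) / 10 ^ 12
        + (Vc r m - ((vRi r m : ℤ) + (vIi r m : ℤ) * I) / 10 ^ 12)‖ := by congr 1; ring
    _ ≤ _ := (norm_add_le _ _).trans (add_le_add h3 h1)

theorem KA_L1_res (r : ℕ) (hr : r ∈ R36) :
    IntervalIntegrable (KA r) volume (-(5 * Real.pi / 6)) (5 * Real.pi / 6) ∧
    ∫ θ in (-(5 * Real.pi / 6))..(5 * Real.pi / 6), ‖KA r θ‖ ≤ (MAt.getD r 0 : ℤ) / 10 ^ 4 := by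
  have hh := hJ_pos r hr
  have hh0 : 0 < hJ r := by linarith
  obtain ⟨i1, i2⟩ := split_L1 (F := KA r) (fun m => PQ r m m / hJ r) (fun m => PQ r m (m + 1) / hJ r)
    (fun m _ θ hθ => KA_piece r hh0.ne' m θ hθ)
  refine ⟨i1, i2.trans ?_⟩
  have hsum : ∑ m ∈ range 30, (‖PQ r m m / hJ r‖ + ‖PQ r m (m + 1) / hJ r‖)
      ≤ ((SA r : ℤ) / 10 ^ 24 + 24 / 1000) / hJ r := by
    have e : ∀ x : ℂ, ‖x / hJ r‖ = ‖x‖ / hJ r := by
      intro x; rw [norm_div, Complex.norm_real, Real.norm_eq_abs, abs_of_pos hh0]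
    simp only [e]
    rw [← Finset.sum_congr rfl (fun m _ => add_div (‖PQ r m m‖) (‖PQ r m (m + 1)‖) (hJ r)),
      ← Finset.sum_div]
    refine div_le_div_of_nonneg_right ?_ hh0.le
    unfold SA
    rw [sumN_eq]
    push_cast
    rw [Finset.sum_div]
    have : (24 / 1000 : ℝ) = ∑ m ∈ range 30, (8 / 10 ^ 4 : ℝ) := by
      rw [Finset.sum_const, Finset.card_range]; norm_num
    rw [this, ← Finset.sum_add_distrib]
    refine Finset.sum_le_sum fun m hm => ?_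
    have hm' := Finset.mem_range.1 hm
    have a1 := PQ_le r hr m m (by omega) (by omega)
    have a2 := PQ_le r hr m (m + 1) (by omega) (by omega)
    linarith
  have hc := MA_check r hr
  have hc' : (87266462601 : ℝ) * ((SA r : ℤ) + 24 * 10 ^ 21) * 10 ^ 12
      ≤ (MAt.getD r 0 : ℤ) * ((hT.getD r 0 : ℤ) - 30) * 10 ^ 36 := by exact_mod_cast hc
  have hhl := (abs_le.1 (hJ_approx r hr)).1
  have hp : Real.pi / 36 ≤ 87266462601 / 10 ^ 12 := by have := Real.pi_lt_d20; linarith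
  have hS0 : (0 : ℝ) ≤ (SA r : ℤ) := by
    unfold SA; rw [sumN_eq]; push_cast
    exact Finset.sum_nonneg fun m _ => by positivity
  have hX : (0 : ℝ) ≤ (SA r : ℤ) / 10 ^ 24 + 24 / 1000 := by positivity
  calc Real.pi / 36 * ∑ m ∈ range 30, (‖PQ r m m / hJ r‖ + ‖PQ r m (m + 1) / hJ r‖)
      ≤ 87266462601 / 10 ^ 12 * (((SA r : ℤ) / 10 ^ 24 + 24 / 1000) / hJ r) :=
        mul_le_mul hp hsum (Finset.sum_nonneg fun m _ => by positivity) (by norm_num)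
    _ = 87266462601 / 10 ^ 12 * ((SA r : ℤ) / 10 ^ 24 + 24 / 1000) / hJ r := by ring
    _ ≤ (MAt.getD r 0 : ℤ) / 10 ^ 4 := by
        rw [div_le_iff₀ hh0]
        have hM0 : (0 : ℝ) ≤ (MAt.getD r 0 : ℤ) := by
          have : ∀ r ∈ R36, 0 ≤ MAt.getD r 0 := by decide +kernel
          exact_mod_cast this r hr
        have h5 : ((hT.getD r 0 : ℤ) - 30 : ℝ) / 10 ^ 8 ≤ hJ r := by linarith
        refine le_trans ?_ (mul_le_mul_of_nonneg_left h5 (by positivity))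
        have e1 : (87266462601 / 10 ^ 12 * ((SA r : ℤ) / 10 ^ 24 + 24 / 1000) : ℝ)
            = (87266462601 * ((SA r : ℤ) + 24 * 10 ^ 21) * 10 ^ 12) / 10 ^ 48 := by ring
        have e2 : ((MAt.getD r 0 : ℤ) / 10 ^ 4 * (((hT.getD r 0 : ℤ) - 30 : ℝ) / 10 ^ 8) : ℝ)
            = ((MAt.getD r 0 : ℤ) * ((hT.getD r 0 : ℤ) - 30) * 10 ^ 36) / 10 ^ 48 := by ring
        rw [e1, e2]
        exact div_le_div_of_nonneg_right hc' (by positivity)

theorem KB_L1_res (r : ℕ) (hr : r ∈ R36) :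
    IntervalIntegrable (KB r) volume (-(5 * Real.pi / 6)) (5 * Real.pi / 6) ∧
    ∫ θ in (-(5 * Real.pi / 6))..(5 * Real.pi / 6), ‖KB r θ‖ ≤ (MBt.getD r 0 : ℤ) / 10 ^ 4 := by
  have hh := hJ_pos r hr
  have hh0 : 0 < hJ r := by linarith
  obtain ⟨i1, i2⟩ := split_L1 (F := KB r) (fun m => -(I / 2) * Vc r m / hJ r)
    (fun m => -(I / 2) * Vc r m / hJ r) (fun m _ θ hθ => KB_piece r m θ hθ)
  refine ⟨i1, i2.trans ?_⟩
  have hsum : ∑ m ∈ range 30, (‖-(I / 2) * Vc r m / hJ r‖ + ‖-(I / 2) * Vc r m / hJ r‖)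
      ≤ ((SB r : ℤ) / 10 ^ 12 + 930 / 10 ^ 8) / hJ r := by
    have e : ∀ x : ℂ, ‖-(I / 2) * x / hJ r‖ + ‖-(I / 2) * x / hJ r‖ = ‖x‖ / hJ r := by
      intro x
      rw [norm_div, norm_mul, norm_neg, norm_div, norm_I, Complex.norm_real, Real.norm_eq_abs,
        abs_of_pos hh0]
      have : ‖(2 : ℂ)‖ = 2 := by norm_num
      rw [this]; ring
    simp only [e]
    rw [← Finset.sum_div]
    refine div_le_div_of_nonneg_right ?_ hh0.le
    unfold SB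
    rw [sumN_eq]
    push_cast
    rw [Finset.sum_div]
    have : (930 / 10 ^ 8 : ℝ) = ∑ m ∈ range 30, (31 / 10 ^ 8 : ℝ) := by
      rw [Finset.sum_const, Finset.card_range]; norm_num
    rw [this, ← Finset.sum_add_distrib]
    refine Finset.sum_le_sum fun m hm => ?_
    have hm' := Finset.mem_range.1 hm
    exact Vc_le r m (by omega)
  have hc := MB_check r hr
  have hc' : (87266462601 : ℝ) * ((SB r : ℤ) + 930 * 10 ^ 4) * 10 ^ 12
      ≤ (MBt.getD r 0 : ℤ) * ((hT.getD r 0 : ℤ) - 30) * 10 ^ 24 := by exact_mod_cast hc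
  have hhl := (abs_le.1 (hJ_approx r hr)).1
  have hp : Real.pi / 36 ≤ 87266462601 / 10 ^ 12 := by have := Real.pi_lt_d20; linarith
  calc Real.pi / 36 * ∑ m ∈ range 30, (‖-(I / 2) * Vc r m / hJ r‖ + ‖-(I / 2) * Vc r m / hJ r‖)
      ≤ 87266462601 / 10 ^ 12 * (((SB r : ℤ) / 10 ^ 12 + 930 / 10 ^ 8) / hJ r) :=
        mul_le_mul hp hsum (Finset.sum_nonneg fun m _ => by positivity) (by norm_num)
    _ = 87266462601 / 10 ^ 12 * ((SB r : ℤ) / 10 ^ 12 + 930 / 10 ^ 8) / hJ r := by ring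
    _ ≤ (MBt.getD r 0 : ℤ) / 10 ^ 4 := by
        rw [div_le_iff₀ hh0]
        have hM0 : (0 : ℝ) ≤ (MBt.getD r 0 : ℤ) := by
          have : ∀ r ∈ R36, 0 ≤ MBt.getD r 0 := by decide +kernel
          exact_mod_cast this r hr
        have h5 : ((hT.getD r 0 : ℤ) - 30 : ℝ) / 10 ^ 8 ≤ hJ r := by linarith
        refine le_trans ?_ (mul_le_mul_of_nonneg_left h5 (by positivity))
        have e1 : (87266462601 / 10 ^ 12 * ((SB r : ℤ) / 10 ^ 12 + 930 / 10 ^ 8) : ℝ)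
            = (87266462601 * ((SB r : ℤ) + 930 * 10 ^ 4) * 10 ^ 12) / 10 ^ 36 := by ring
        have e2 : ((MBt.getD r 0 : ℤ) / 10 ^ 4 * (((hT.getD r 0 : ℤ) - 30 : ℝ) / 10 ^ 8) : ℝ)
            = ((MBt.getD r 0 : ℤ) * ((hT.getD r 0 : ℤ) - 30) * 10 ^ 24) / 10 ^ 36 := by ring
        rw [e1, e2]
        exact div_le_div_of_nonneg_right hc' (by positivity)

/-- **L¹ norms of the kernels** -/
theorem KA_L1 (j : ℤ) (hj : j ∈ nodeS) :
    IntervalIntegrable (KA j) volume (-(5 * Real.pi / 6)) (5 * Real.pi / 6) ∧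
    ∫ θ in (-(5 * Real.pi / 6))..(5 * Real.pi / 6), ‖KA j θ‖
      ≤ (MAt.getD (j % 36).toNat 0 : ℤ) / 10 ^ 4 := by
  rw [KA_res j]; exact KA_L1_res _ hj

theorem KB_L1 (j : ℤ) (hj : j ∈ nodeS) :
    IntervalIntegrable (KB j) volume (-(5 * Real.pi / 6)) (5 * Real.pi / 6) ∧
    ∫ θ in (-(5 * Real.pi / 6))..(5 * Real.pi / 6), ‖KB j θ‖
      ≤ (MBt.getD (j % 36).toNat 0 : ℤ) / 10 ^ 4 := by
  rw [KB_res j]; exact KB_L1_res _ hj

end

end Pool.Agent.Helper95.CE
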