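import Pool.Agent.Helper54.CE.Stmts
import Pool.Agent.Helper95.CE.Kn3

/-!
# Bridge to the definitions of `Helper54.CE.Defs`
-/

namespace CE

open Pool.Agent.Helper95.CE

theorem h95_om : CE.om = Pool.Agent.Helper95.CE.om := by
  apply Complex.ext
  · simp [CE.om, Pool.Agent.Helper95.CE.om]; norm_num
  · simp [CE.om, Pool.Agent.Helper95.CE.om]

theorem h95_c1 : ∀ k < 16, uL.getD (k + 15) 0 + vL.getD (k + 15) 0 = 2 * sgA.getD k 0 ∧
    vL.getD (k + 15) 0 = sgB.getD k 0 := by decide +kernel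

theorem h95_c2 : ∀ k < 15, uL.getD k 0 + vL.getD k 0 = 2 * (sgA.getD (15 - k) 0 - sgB.getD (15 - k) 0) ∧
    vL.getD k 0 = - sgB.getD (15 - k) 0 := by decide +kernel

theorem h95_conj_om : (starRingEnd ℂ) Pool.Agent.Helper95.CE.om = -1 - Pool.Agent.Helper95.CE.om := by
  rw [← h95_om]
  apply Complex.ext
  · simp [CE.om]; norm_num
  · simp [CE.om]

theorem h95_sig (k : ℕ) (hk : k < 31) : CE.sig ((k : ℤ) - 15) = aN k := by
  unfold CE.sig aN
  rw [h95_om]
  by_cases h : 15 ≤ k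
  · have h0 : (0 : ℤ) ≤ (k : ℤ) - 15 := by omega
    rw [if_pos h0]
    have e : ((k : ℤ) - 15).toNat = k - 15 := by omega
    obtain ⟨c1, c2⟩ := h95_c1 (k - 15) (by omega)
    have e2 : k - 15 + 15 = k := by omega
    rw [e2] at c1 c2
    rw [e, c2]
    have c1' : ((uL.getD k 0 : ℤ) : ℂ) + ((sgB.getD (k - 15) 0 : ℤ) : ℂ)
        = 2 * ((sgA.getD (k - 15) 0 : ℤ) : ℂ) := by
      rw [← c2]; exact_mod_cast c1
    linear_combination (-(1 / 2) : ℂ) * c1'
  · have h0 : ¬ (0 : ℤ) ≤ (k : ℤ) - 15 := by omega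
    rw [if_neg h0]
    have e : (-((k : ℤ) - 15)).toNat = 15 - k := by omega
    obtain ⟨c1, c2⟩ := h95_c2 k (by omega)
    rw [e, map_add, map_mul, h95_conj_om, map_intCast, map_intCast, c2]
    have c1' : ((uL.getD k 0 : ℤ) : ℂ) + ((-sgB.getD (15 - k) 0 : ℤ) : ℂ)
        = 2 * (((sgA.getD (15 - k) 0 : ℤ) : ℂ) - ((sgB.getD (15 - k) 0 : ℤ) : ℂ)) := by
      rw [← c2]; exact_mod_cast c1
    push_cast at c1' ⊢
    linear_combination (-(1 / 2) : ℂ) * c1'

theorem h95_sd (m : ℕ) (n : ℝ) : sd m n = sigR m n := by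
  unfold sd sigR sigD
  congr 1
  symm
  refine Finset.sum_bij (fun (k : ℕ) _ => (k : ℤ) - 15) ?_ ?_ ?_ ?_
  · intro k hk
    have := Finset.mem_range.1 hk
    unfold KK
    rw [Finset.mem_Icc]; omega
  · intro a _ b _ h; omega
  · intro b hb
    unfold KK at hb
    rw [Finset.mem_Icc] at hb
    exact ⟨(b + 15).toNat, Finset.mem_range.2 (by omega), by omega⟩
  · intro k hk
    rw [h95_sig k (Finset.mem_range.1 hk)]
    have : Complex.I * (th36 k : ℂ) = Complex.I * (nu : ℂ) * (((k : ℤ) - 15 : ℤ) : ℂ) := by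
      unfold th36 nu; push_cast; ring
    rw [this]

theorem h95_node (j : ℕ) (hj : NN j) : ((j : ℤ)) ∈ nodeS := by
  unfold NN at hj
  show ((j : ℤ) % 36).toNat ∈ Pool.Agent.Helper95.CE.R36
  have : ((j : ℤ) % 36).toNat = j % 36 := by omega
  rw [this]; exact hj

theorem st_SNO' : ST_SNO := by
  refine ⟨fun n => ?_, fun j hj => ⟨?_, ?_⟩⟩
  · rw [h95_sd, sigR_zero]; exact sig_nonneg n
  · rw [h95_sd, sigR_zero]
    have := sig_node _ (h95_node j hj)
    simpa using this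
  · rw [h95_sd]
    have := sigR_one_node _ (h95_node j hj)
    simpa using this

theorem st_SDV' : ST_SDV := by
  intro m n
  have e : sd m = sigR m := funext fun n => h95_sd m n
  rw [e, h95_sd]; exact sigR_hasDerivAt m n

theorem h95_res (j : ℕ) (m : ℕ) : sd m (j : ℝ) = sigR m ((j % 36 : ℕ) : ℝ) := by
  rw [h95_sd]
  have := sigR_res m (j : ℤ)
  have e : ((j : ℤ) % 36).toNat = j % 36 := by omega
  rw [e, Int.cast_natCast, Int.cast_natCast] at this
  exact this

theorem st_STB' : ST_STB := by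
  intro j hj
  have hr : j % 36 ∈ Pool.Agent.Helper95.CE.R36 := hj
  have h1 := (abs_le.1 (hJ_approx _ hr)).1
  have e : sd 2 (j : ℝ) / 2 = hJ ((j % 36 : ℕ) : ℤ) := by
    rw [h95_res]; unfold hJ; rw [Int.cast_natCast]
  rw [e]
  revert h1
  generalize hJ ((j % 36 : ℕ) : ℤ) = x
  intro h1
  simp only [Pool.Agent.Helper95.CE.R36, Finset.mem_insert, Finset.mem_singleton] at hr
  rcases hr with h | h | h | h | h | h | h | h | h | h | h | h | h | h | h <;>
  · rw [h] at h1 ⊢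
    norm_num [s2lo, hT] at h1 ⊢
    linarith

theorem st_SRH' : ST_SRH := by
  intro j hj
  have hr : j % 36 ∈ Pool.Agent.Helper95.CE.R36 := hj
  have h1 := (abs_le.1 (hJ_approx _ hr)).1
  have h2 := abs_le.1 (tJ_approx _ hr)
  have e : sd 2 (j : ℝ) / 2 = hJ ((j % 36 : ℕ) : ℤ) := by
    rw [h95_res]; unfold hJ; rw [Int.cast_natCast]
  have e3 : sd 3 (j : ℝ) / 6 = tJ ((j % 36 : ℕ) : ℤ) := by
    rw [h95_res]; unfold tJ; rw [Int.cast_natCast]
  rw [e, e3]
  revert h1 h2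
  generalize hJ ((j % 36 : ℕ) : ℤ) = x
  generalize tJ ((j % 36 : ℕ) : ℤ) = y
  intro h1 h2
  obtain ⟨h2, h3⟩ := h2
  simp only [Pool.Agent.Helper95.CE.R36, Finset.mem_insert, Finset.mem_singleton] at hr
  rcases hr with h | h | h | h | h | h | h | h | h | h | h | h | h | h | h <;>
  · rw [h] at h1 h2 h3
    norm_num [hT, tT] at h1 h2 h3
    rw [abs_le]; constructor <;> linarith

end CE
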