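import Mathlib

/-!
# Abstract sign lemma

If `E` has double zeros at the nodes, `|E''| ≤ ε e^{-bx}`, and every point is within `δ` of a node,
then `|E| ≤ (ε/2) e^{bδ} e^{-bx} dist(x, node)²`; so `|E| ≤ T` as soon as `T` is at least
`c₀ dist(x, node)² e^{-mx}`, `m ≤ b`, from `x₀` on.
-/

namespace Pool.Agent.Helper95.CE

open Set

/-- Taylor with a double zero: `|E x| ≤ (M/2) (x-j)²` if `|E''| ≤ M` between `j` and `x`. -/
theorem dbl_zero {E E' E'' : ℝ → ℝ} {j x M : ℝ}
    (h1 : ∀ y ∈ uIcc j x, HasDerivAt E (E' y) y) (h2 : ∀ y ∈ uIcc j x, HasDerivAt E' (E'' y) y)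
    (hM : ∀ y ∈ uIcc j x, |E'' y| ≤ M) (z0 : E j = 0) (z1 : E' j = 0) :
    |E x| ≤ M / 2 * (x - j) ^ 2 := by
  -- first: |E' y| ≤ M |y - j|
  have d1 : ∀ y ∈ uIcc j x, |E' y| ≤ M * |y - j| := by
    intro y hy
    have := Convex.norm_image_sub_le_of_norm_hasDerivWithin_le (f := E') (f' := E'') (C := M)
      (s := uIcc j x) (x := j) (y := y) (fun z hz => (h2 z hz).hasDerivWithinAt)
      (fun z hz => by rw [Real.norm_eq_abs]; exact hM z hz) (convex_uIcc j x) left_mem_uIcc hy
    rwa [z1, sub_zero, Real.norm_eq_abs, Real.norm_eq_abs] at this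
  rcases le_total j x with h | h
  · rw [uIcc_of_le h] at h1 h2 hM d1
    -- g = E - M/2 (y-j)^2 antitone, g2 = E + M/2 (y-j)^2 monotone on [j,x]
    have mono1 : MonotoneOn (fun y => M / 2 * (y - j) ^ 2 - E y) (Icc j x) := by
      refine monotoneOn_of_deriv_nonneg (convex_Icc j x) ?_ ?_ ?_
      · intro y hy
        exact (((continuous_const.mul ((continuous_id.sub continuous_const).pow 2)).continuousAt).sub
          (h1 y hy).continuousAt).continuousWithinAt
      · intro y hy
        rw [interior_Icc] at hy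
        exact ((((hasDerivAt_id y).sub_const j).pow 2).const_mul (M / 2)).differentiableAt.sub
          (h1 y (Ioo_subset_Icc_self hy)).differentiableAt |>.differentiableWithinAt
      · intro y hy
        rw [interior_Icc] at hy
        have hd := ((((hasDerivAt_id y).sub_const j).pow 2).const_mul (M / 2)).sub
          (h1 y (Ioo_subset_Icc_self hy))
        have e := d1 y (Ioo_subset_Icc_self hy)
        rw [abs_of_nonneg (show 0 ≤ y - j by linarith [hy.1])] at e
        have h3 : deriv (fun y => M / 2 * (y - j) ^ 2 - E y) y = _ := hd.deriv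
        rw [h3]
        simp only [id]
        have := abs_le.1 e
        nlinarith [this.2]
    have mono2 : MonotoneOn (fun y => M / 2 * (y - j) ^ 2 + E y) (Icc j x) := by
      refine monotoneOn_of_deriv_nonneg (convex_Icc j x) ?_ ?_ ?_
      · intro y hy
        exact (((continuous_const.mul ((continuous_id.sub continuous_const).pow 2)).continuousAt).add
          (h1 y hy).continuousAt).continuousWithinAt
      · intro y hy
        rw [interior_Icc] at hy
        exact ((((hasDerivAt_id y).sub_const j).pow 2).const_mul (M / 2)).differentiableAt.add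
          (h1 y (Ioo_subset_Icc_self hy)).differentiableAt |>.differentiableWithinAt
      · intro y hy
        rw [interior_Icc] at hy
        have hd := ((((hasDerivAt_id y).sub_const j).pow 2).const_mul (M / 2)).add
          (h1 y (Ioo_subset_Icc_self hy))
        have e := d1 y (Ioo_subset_Icc_self hy)
        rw [abs_of_nonneg (show 0 ≤ y - j by linarith [hy.1])] at e
        have h3 : deriv (fun y => M / 2 * (y - j) ^ 2 + E y) y = _ := hd.deriv
        rw [h3]
        simp only [id]
        have := abs_le.1 e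
        nlinarith [this.1]
    have a1 := mono1 (left_mem_Icc.2 h) (right_mem_Icc.2 h) h
    have a2 := mono2 (left_mem_Icc.2 h) (right_mem_Icc.2 h) h
    simp only [sub_self, z0] at a1 a2
    rw [abs_le]; constructor <;> nlinarith
  · rw [uIcc_of_ge h] at h1 h2 hM d1
    have mono1 : AntitoneOn (fun y => M / 2 * (y - j) ^ 2 - E y) (Icc x j) := by
      refine antitoneOn_of_deriv_nonpos (convex_Icc x j) ?_ ?_ ?_
      · intro y hy
        exact (((continuous_const.mul ((continuous_id.sub continuous_const).pow 2)).continuousAt).sub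
          (h1 y hy).continuousAt).continuousWithinAt
      · intro y hy
        rw [interior_Icc] at hy
        exact ((((hasDerivAt_id y).sub_const j).pow 2).const_mul (M / 2)).differentiableAt.sub
          (h1 y (Ioo_subset_Icc_self hy)).differentiableAt |>.differentiableWithinAt
      · intro y hy
        rw [interior_Icc] at hy
        have hd := ((((hasDerivAt_id y).sub_const j).pow 2).const_mul (M / 2)).sub
          (h1 y (Ioo_subset_Icc_self hy))
        have e := d1 y (Ioo_subset_Icc_self hy)
        rw [abs_of_nonpos (show y - j ≤ 0 by linarith [hy.2])] at e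
        have h3 : deriv (fun y => M / 2 * (y - j) ^ 2 - E y) y = _ := hd.deriv
        rw [h3]
        simp only [id]
        have := abs_le.1 e
        nlinarith [this.1]
    have mono2 : AntitoneOn (fun y => M / 2 * (y - j) ^ 2 + E y) (Icc x j) := by
      refine antitoneOn_of_deriv_nonpos (convex_Icc x j) ?_ ?_ ?_
      · intro y hy
        exact (((continuous_const.mul ((continuous_id.sub continuous_const).pow 2)).continuousAt).add
          (h1 y hy).continuousAt).continuousWithinAt
      · intro y hy
        rw [interior_Icc] at hy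
        exact ((((hasDerivAt_id y).sub_const j).pow 2).const_mul (M / 2)).differentiableAt.add
          (h1 y (Ioo_subset_Icc_self hy)).differentiableAt |>.differentiableWithinAt
      · intro y hy
        rw [interior_Icc] at hy
        have hd := ((((hasDerivAt_id y).sub_const j).pow 2).const_mul (M / 2)).add
          (h1 y (Ioo_subset_Icc_self hy))
        have e := d1 y (Ioo_subset_Icc_self hy)
        rw [abs_of_nonpos (show y - j ≤ 0 by linarith [hy.2])] at e
        have h3 : deriv (fun y => M / 2 * (y - j) ^ 2 + E y) y = _ := hd.deriv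
        rw [h3]
        simp only [id]
        have := abs_le.1 e
        nlinarith [this.2]
    have a1 := mono1 (left_mem_Icc.2 h) (right_mem_Icc.2 h) h
    have a2 := mono2 (left_mem_Icc.2 h) (right_mem_Icc.2 h) h
    simp only [sub_self, z0] at a1 a2
    rw [abs_le]; constructor <;> nlinarith

/-- **Sign lemma.** -/
theorem sgn {E E' E'' T : ℝ → ℝ} {x0 δ ε b c0 m : ℝ}
    (h1 : ∀ y, x0 - δ ≤ y → HasDerivAt E (E' y) y) (h2 : ∀ y, x0 - δ ≤ y → HasDerivAt E' (E'' y) y)
    (hb0 : 0 ≤ b) (hε : 0 ≤ ε) (hbm : m ≤ b) (hδ : 0 ≤ δ)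
    (hM : ∀ y, x0 - δ ≤ y → |E'' y| ≤ ε * Real.exp (-b * y))
    (hnode : ∀ x, x0 ≤ x → ∃ j, |x - j| ≤ δ ∧ E j = 0 ∧ E' j = 0 ∧
      c0 * (x - j) ^ 2 * Real.exp (-m * x) ≤ T x)
    (hc : ε / 2 * Real.exp (b * δ) * Real.exp (-(b - m) * x0) ≤ c0) :
    ∀ x, x0 ≤ x → |E x| ≤ T x := by
  intro x hx
  obtain ⟨j, hj, z0, z1, hT⟩ := hnode x hx
  have hjl : x0 - δ ≤ j := by have := (abs_le.1 hj).2; linarith
  have hmem : ∀ y ∈ uIcc j x, x0 - δ ≤ y ∧ x - δ ≤ y := by
    intro y hy
    rcases le_total j x with h | h
    · rw [uIcc_of_le h] at hy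
      have := (abs_le.1 hj).2
      exact ⟨by linarith [hy.1], by linarith [hy.1]⟩
    · rw [uIcc_of_ge h] at hy
      exact ⟨by linarith [hy.1], by linarith [hy.1]⟩
  have key := dbl_zero (E := E) (E' := E') (E'' := E'') (j := j) (x := x)
    (M := ε * Real.exp (-b * (x - δ)))
    (fun y hy => h1 y (hmem y hy).1) (fun y hy => h2 y (hmem y hy).1)
    (fun y hy => (hM y (hmem y hy).1).trans (mul_le_mul_of_nonneg_left
      (Real.exp_le_exp.2 (by nlinarith [(hmem y hy).2])) hε)) z0 z1
  refine key.trans (le_trans ?_ hT)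
  have e1 : Real.exp (-b * (x - δ)) = Real.exp (b * δ) * Real.exp (-(b - m) * x) *
      Real.exp (-m * x) := by
    rw [← Real.exp_add, ← Real.exp_add]; congr 1; ring
  have e2 : Real.exp (-(b - m) * x) ≤ Real.exp (-(b - m) * x0) :=
    Real.exp_le_exp.2 (by nlinarith)
  have e3 : ε / 2 * Real.exp (b * δ) * Real.exp (-(b - m) * x) ≤ c0 :=
    (mul_le_mul_of_nonneg_left e2 (by positivity)).trans hc
  calc ε * Real.exp (-b * (x - δ)) / 2 * (x - j) ^ 2
      = (ε / 2 * Real.exp (b * δ) * Real.exp (-(b - m) * x)) * ((x - j) ^ 2 * Real.exp (-m * x)) := by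
        rw [e1]; ring
    _ ≤ c0 * ((x - j) ^ 2 * Real.exp (-m * x)) :=
        mul_le_mul_of_nonneg_right e3 (by positivity)
    _ = c0 * (x - j) ^ 2 * Real.exp (-m * x) := by ring

end Pool.Agent.Helper95.CE
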