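import Mathlib
import Pool.Agent.Helper95.CE.Kn3
import Pool.Agent.Helper95.CE.Sgn
import Pool.Agent.Helper48.CE.Der

/-!
# The normalised cardinal functions

For `j ∈ nodeS`: `cA j` (value 1, derivative 0 at `j`, double zeros at all other nodes) and
`cB j` (value 0, derivative 1 at `j`, double zeros at all other nodes), as
`CE48.SN (5π/6) (KA j) j`, `CE48.SN (5π/6) (KB j) j`.
-/

namespace Pool.Agent.Helper95.CE

open Complex Finset MeasureTheory intervalIntegral

noncomputable section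

/-- `m`-th derivative of the band limited function with kernel `K` -/
def ED (K : ℝ → ℂ) (p : ℝ) (m : ℕ) (x : ℝ) : ℂ :=
  ∫ θ in (-(5 * Real.pi / 6))..(5 * Real.pi / 6), K θ * (I * θ) ^ m * cexp (I * θ * (x - p : ℝ))

theorem ED_zero (K : ℝ → ℂ) (p x : ℝ) : ED K p 0 x = CE48.SN (5 * Real.pi / 6) K p x := by
  unfold ED CE48.SN
  refine integral_congr fun θ _ => ?_
  simp only [pow_zero, mul_one]

theorem norm_fac (θ x p : ℝ) (m : ℕ) : ‖(I * θ) ^ m * cexp (I * θ * (x - p : ℝ))‖ = |θ| ^ m := by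
  rw [norm_mul, norm_pow, norm_mul, norm_I, one_mul, Complex.norm_real, Real.norm_eq_abs]
  have : I * θ * ((x - p : ℝ) : ℂ) = ((θ * (x - p) : ℝ) : ℂ) * I := by push_cast; ring
  rw [this, norm_exp_ofReal_mul_I, mul_one]

theorem ED_hasDerivAt {K : ℝ → ℂ}
    (hK : IntervalIntegrable K volume (-(5 * Real.pi / 6)) (5 * Real.pi / 6)) (p : ℝ) (m : ℕ)
    (x : ℝ) : HasDerivAt (ED K p m) (ED K p (m + 1) x) x := by
  have hp := Real.pi_pos
  have hle : -(5 * Real.pi / 6) ≤ 5 * Real.pi / 6 := by linarith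
  set L := 5 * Real.pi / 6 with hL
  have hms : ∀ (k : ℕ) (y : ℝ), AEStronglyMeasurable
      (fun θ : ℝ => K θ * (I * θ) ^ k * cexp (I * θ * (y - p : ℝ)))
      (volume.restrict (Set.uIoc (-L) L)) := by
    intro k y
    have h1 : AEStronglyMeasurable K (volume.restrict (Set.uIoc (-L) L)) := by
      rw [Set.uIoc_of_le hle]; exact hK.1.aestronglyMeasurable
    exact (h1.mul (Continuous.aestronglyMeasurable (by fun_prop))).mul
      (Continuous.aestronglyMeasurable (by fun_prop))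
  have hint : ∀ (k : ℕ) (y : ℝ), IntervalIntegrable
      (fun θ : ℝ => K θ * (I * θ) ^ k * cexp (I * θ * (y - p : ℝ))) volume (-L) L := by
    intro k y
    have : (fun θ : ℝ => K θ * (I * θ) ^ k * cexp (I * θ * (y - p : ℝ)))
        = fun θ : ℝ => K θ * ((I * θ) ^ k * cexp (I * θ * (y - p : ℝ))) := by
      funext θ; ring
    rw [this]
    exact hK.mul_continuousOn (Continuous.continuousOn (by fun_prop))
  have key := intervalIntegral.hasDerivAt_integral_of_dominated_loc_of_deriv_le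
    (μ := volume) (a := -L) (b := L) (x₀ := x) (s := Set.univ)
    (F := fun (y : ℝ) (θ : ℝ) => K θ * (I * θ) ^ m * cexp (I * θ * (y - p : ℝ)))
    (F' := fun (y : ℝ) (θ : ℝ) => K θ * (I * θ) ^ (m + 1) * cexp (I * θ * (y - p : ℝ)))
    (bound := fun θ => ‖K θ‖ * L ^ (m + 1)) Filter.univ_mem
    (Filter.Eventually.of_forall fun y => hms m y) (hint m x) (hms (m + 1) x)
    (Filter.Eventually.of_forall fun θ hθ y _ => by
      rw [mul_assoc, norm_mul, norm_fac]
      rw [Set.uIoc_of_le hle] at hθ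
      exact mul_le_mul_of_nonneg_left (pow_le_pow_left₀ (abs_nonneg _)
        (abs_le.2 ⟨hθ.1.le, hθ.2⟩) _) (norm_nonneg _))
    (hK.norm.mul_const _)
    (Filter.Eventually.of_forall fun θ _ y _ => by
      have e1 : HasDerivAt (fun y : ℝ => ((y - p : ℝ) : ℂ)) 1 y := by
        have := ((hasDerivAt_id y).sub_const p).ofReal_comp
        simpa using this
      have e2 := ((e1.const_mul (I * (θ : ℂ))).cexp).const_mul (K θ * (I * θ) ^ m)
      refine e2.congr_deriv ?_
      rw [pow_succ]; ring)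
  exact key.2

theorem ED_norm_le {K : ℝ → ℂ}
    (hK : IntervalIntegrable K volume (-(5 * Real.pi / 6)) (5 * Real.pi / 6)) (p : ℝ) (m : ℕ)
    (x : ℝ) : ‖ED K p m x‖ ≤ (5 * Real.pi / 6) ^ m *
      ∫ θ in (-(5 * Real.pi / 6))..(5 * Real.pi / 6), ‖K θ‖ := by
  have hp := Real.pi_pos
  have hle : -(5 * Real.pi / 6) ≤ 5 * Real.pi / 6 := by linarith
  unfold ED
  refine (intervalIntegral.norm_integral_le_integral_norm hle).trans ?_
  rw [← intervalIntegral.integral_const_mul]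
  refine intervalIntegral.integral_mono_on hle ?_ (hK.norm.const_mul _) fun θ hθ => ?_
  · have : (fun θ : ℝ => K θ * (I * θ) ^ m * cexp (I * θ * (x - p : ℝ)))
        = fun θ : ℝ => K θ * ((I * θ) ^ m * cexp (I * θ * (x - p : ℝ))) := by
      funext θ; ring
    have h2 : IntervalIntegrable (fun θ : ℝ => K θ * (I * θ) ^ m * cexp (I * θ * (x - p : ℝ)))
        volume (-(5 * Real.pi / 6)) (5 * Real.pi / 6) := by
      rw [this]
      exact hK.mul_continuousOn (Continuous.continuousOn (by fun_prop))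
    exact h2.norm
  · rw [mul_assoc, norm_mul, norm_fac, mul_comm]
    exact mul_le_mul_of_nonneg_right (pow_le_pow_left₀ (abs_nonneg _)
        (abs_le.2 ⟨by linarith [hθ.1], hθ.2⟩) _) (norm_nonneg _)

/-- explicit cardinal functions -/
def cA (j : ℤ) (x : ℝ) : ℝ :=
  if x = j then 1 else sig x / (hJ j * (x - j) ^ 2) - tJ j * sig x / (hJ j ^ 2 * (x - j))
def cB (j : ℤ) (x : ℝ) : ℝ := if x = j then 0 else sig x / (hJ j * (x - j))

theorem hJ_pos' (j : ℤ) (hj : j ∈ nodeS) : 0.156 ≤ hJ j := by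
  rw [hJ_res j]; exact hJ_pos _ hj

theorem ED_KA_off (j : ℤ) (hj : j ∈ nodeS) (x : ℝ) (hx : x ≠ j) :
    ED (KA j) j 0 x = ((cA j x : ℝ) : ℂ) := by
  have hh : hJ j ≠ 0 := by have := hJ_pos' j hj; intro h; rw [h] at this; norm_num at this
  have hh' : (hJ j : ℂ) ≠ 0 := by exact_mod_cast hh
  have hz : (x : ℂ) ≠ ((j : ℤ) : ℂ) := by exact_mod_cast hx
  have hz0 : (x : ℂ) - ((j : ℤ) : ℂ) ≠ 0 := sub_ne_zero.2 hz
  have k1 := kapJ_int j hj (x : ℂ) hz
  have k2 := rhoJ_int j hj (x : ℂ) hz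
  have e : ∀ θ : ℝ, KA j θ * (I * θ) ^ 0 * cexp (I * θ * (x - ((j : ℤ) : ℝ) : ℝ))
      = (1 / hJ j : ℂ) * (kapJ j θ * cexp (I * θ * ((x : ℂ) - ((j : ℤ) : ℂ))))
        - (tJ j / hJ j ^ 2 : ℂ) * (rhoJ j θ * cexp (I * θ * ((x : ℂ) - ((j : ℤ) : ℂ)))) := by
    intro θ
    unfold KA
    push_cast
    rw [pow_zero]
    ring
  unfold ED
  simp_rw [e]
  rw [intervalIntegral.integral_sub, intervalIntegral.integral_const_mul,
    intervalIntegral.integral_const_mul, k1, k2, ← sig_eq]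
  · unfold cA
    rw [if_neg hx]
    push_cast
    field_simp
  · exact ((((kapJ_cont j).mul (by fun_prop)).intervalIntegrable _ _)).const_mul _
  · refine IntervalIntegrable.const_mul ?_ _
    exact rho_intble (range 31) (bJ j) th36 _ th36_abs _ hz0

theorem ED_KB_off (j : ℤ) (hj : j ∈ nodeS) (x : ℝ) (hx : x ≠ j) :
    ED (KB j) j 0 x = ((cB j x : ℝ) : ℂ) := by
  have hh : hJ j ≠ 0 := by have := hJ_pos' j hj; intro h; rw [h] at this; norm_num at this
  have hh' : (hJ j : ℂ) ≠ 0 := by exact_mod_cast hh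
  have hz : (x : ℂ) ≠ ((j : ℤ) : ℂ) := by exact_mod_cast hx
  have k2 := rhoJ_int j hj (x : ℂ) hz
  have e : ∀ θ : ℝ, KB j θ * (I * θ) ^ 0 * cexp (I * θ * (x - ((j : ℤ) : ℝ) : ℝ))
      = (1 / hJ j : ℂ) * (rhoJ j θ * cexp (I * θ * ((x : ℂ) - ((j : ℤ) : ℂ)))) := by
    intro θ
    unfold KB
    push_cast
    rw [pow_zero]
    ring
  unfold ED
  simp_rw [e]
  rw [intervalIntegral.integral_const_mul, k2, ← sig_eq]
  unfold cB
  rw [if_neg hx]
  push_cast
  field_simp

/-- Taylor expansion of `sig` at `j` -/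
theorem sig_taylor (j : ℤ) (hj : j ∈ nodeS) : ∃ C : ℝ, 0 ≤ C ∧ ∀ y : ℝ,
    |sig (j + y) - hJ j * y ^ 2 - tJ j * y ^ 3| ≤ C * y ^ 4 := by
  set C0 : ℝ := ∑ k ∈ range 31, ‖aN k‖ * |th36 k| ^ 4 with hC0
  have hC0n : 0 ≤ C0 := Finset.sum_nonneg fun k _ => by positivity
  have h4 : ∀ x : ℝ, |sigR 4 x| ≤ C0 := by
    intro x
    refine (Complex.abs_re_le_norm _).trans ((norm_sum_le _ _).trans (le_of_eq ?_))
    refine Finset.sum_congr rfl fun k _ => ?_
    rw [norm_mul, norm_mul, norm_pow, norm_mul, norm_I, one_mul, Complex.norm_real,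
      Real.norm_eq_abs]
    have : I * th36 k * (x : ℂ) = ((th36 k * x : ℝ) : ℂ) * I := by push_cast; ring
    rw [this, norm_exp_ofReal_mul_I, mul_one]
  have hs : ∀ (m : ℕ) (y : ℝ), HasDerivAt (fun y : ℝ => sigR m (j + y)) (sigR (m + 1) (j + y)) y := by
    intro m y
    have := (sigR_hasDerivAt m (j + y)).comp y ((hasDerivAt_id y).const_add (j : ℝ))
    rw [mul_one] at this
    exact this
  have t1 : ∀ y : ℝ, |sigR 2 (j + y) - 2 * hJ j - 6 * tJ j * y| ≤ C0 / 2 * y ^ 2 := by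
    intro y
    have := dbl_zero (E := fun y => sigR 2 (j + y) - 2 * hJ j - 6 * tJ j * y)
      (E' := fun y => sigR 3 (j + y) - 6 * tJ j) (E'' := fun y => sigR 4 (j + y)) (j := 0) (x := y)
      (M := C0) (fun y _ => by
        have := ((hs 2 y).sub_const (2 * hJ j)).sub ((hasDerivAt_id y).const_mul (6 * tJ j))
        rw [mul_one] at this
        exact this)
      (fun y _ => (hs 3 y).sub_const _) (fun y _ => h4 _)
      (by simp [hJ]; ring) (by simp [tJ]; ring)
    simpa using this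
  refine ⟨C0 / 4, by positivity, fun y => ?_⟩
  have := dbl_zero (E := fun y => sig (j + y) - hJ j * y ^ 2 - tJ j * y ^ 3)
    (E' := fun y => sigR 1 (j + y) - 2 * hJ j * y - 3 * tJ j * y ^ 2)
    (E'' := fun y => sigR 2 (j + y) - 2 * hJ j - 6 * tJ j * y) (j := 0) (x := y)
    (M := C0 / 2 * y ^ 2)
    (fun z _ => by
      have e0 : (fun y : ℝ => sigR 0 (j + y)) = fun y : ℝ => sig (j + y) :=
        funext fun y => sigR_zero _
      have h0 := hs 0 z
      rw [e0] at h0
      have h1 := ((hasDerivAt_pow 2 z).const_mul (hJ j))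
      have h2 := ((hasDerivAt_pow 3 z).const_mul (tJ j))
      refine ((h0.sub h1).sub h2).congr_deriv ?_
      push_cast; ring)
    (fun z _ => by
      have h1 := ((hasDerivAt_id z).const_mul (2 * hJ j))
      have h2 := ((hasDerivAt_pow 2 z).const_mul (3 * tJ j))
      refine (((hs 1 z).sub h1).sub h2).congr_deriv ?_
      push_cast; ring)
    (fun z hz => by
      refine (t1 z).trans (mul_le_mul_of_nonneg_left ?_ (by positivity))
      rcases le_total 0 y with h | h
      · rw [Set.uIcc_of_le h] at hz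
        exact pow_le_pow_left₀ hz.1 hz.2 2
      · rw [Set.uIcc_of_ge h] at hz
        nlinarith [hz.1, hz.2])
    (by simp [sig_node j hj]) (by simp [sigR_one_node j hj])
  calc _ ≤ C0 / 2 * y ^ 2 / 2 * (y - 0) ^ 2 := this
    _ = C0 / 4 * y ^ 4 := by ring

end

end Pool.Agent.Helper95.CE
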